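import Mathlib

set_option autoImplicit false

namespace Pool.Agent.H59.Biclique

open scoped Classical

/-- `(S, T)` is a biclique of the bipartite graph with edge set `G ⊆ α × β`. -/
def IsBiclique {α β : Type} (G : Finset (α × β)) (S : Finset α) (T : Finset β) : Prop :=
  S.Nonempty ∧ T.Nonempty ∧ S ×ˢ T ⊆ G

/-- `H(a,b) = ab/(a+b)`. -/
noncomputable def harm (a b : ℕ) : ℝ := (a : ℝ) * b / (a + b)

/-- `κ` of the subgraph of `G` induced on `A ∪ B`: the maximum of `H(|S|,|T|)` over its bicliques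
`(S,T)`. -/
noncomputable def kappa {α β : Type} (G : Finset (α × β)) (A : Finset α) (B : Finset β) : ℝ :=
  sSup {x : ℝ | ∃ (S : Finset α) (T : Finset β), S ⊆ A ∧ T ⊆ B ∧ IsBiclique G S T ∧
    x = harm S.card T.card}

/-- `μ(G)`: the maximum of `|E(G')| / κ(G')` over the induced subgraphs `G'` of `G` having at least
one edge. -/
noncomputable def mu {α β : Type} (G : Finset (α × β)) : ℝ :=
  sSup {x : ℝ | ∃ (A : Finset α) (B : Finset β), (G ∩ A ×ˢ B).Nonempty ∧
    x = ((G ∩ A ×ˢ B).card : ℝ) / kappa G A B}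

/-- `η(E')`: the minimum of `(|S|+|T|)/|E' ∩ (S × T)|` over the bicliques `(S,T)` of `G` that
meet `E'`. -/
noncomputable def eta {α β : Type} (G E' : Finset (α × β)) : ℝ :=
  sInf {x : ℝ | ∃ (S : Finset α) (T : Finset β), IsBiclique G S T ∧ (E' ∩ S ×ˢ T).Nonempty ∧
    x = ((S.card : ℝ) + T.card) / (E' ∩ S ×ˢ T).card}

/-- `η*(G)`: the maximum of `|E'| η(E')` over nonempty sets `E'` of edges. -/
noncomputable def etaStar {α β : Type} (G : Finset (α × β)) : ℝ :=
  sSup {x : ℝ | ∃ E' : Finset (α × β), E' ⊆ G ∧ E'.Nonempty ∧ x = (E'.card : ℝ) * eta G E'}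

/-- `g(n)`: the maximum of `η*(G)/μ(G)` over bipartite graphs `G` on at most `n` vertices, with no
isolated vertices (and with at least one edge). -/
noncomputable def g (n : ℕ) : ℝ :=
  sSup {x : ℝ | ∃ (α β : Type) (_ : Fintype α) (_ : Fintype β) (G : Finset (α × β)),
    G.Nonempty ∧ (∀ a, ∃ b, (a, b) ∈ G) ∧ (∀ b, ∃ a, (a, b) ∈ G) ∧
    Fintype.card α + Fintype.card β ≤ n ∧ x = etaStar G / mu G}

end Pool.Agent.H59.Biclique
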