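import Pool.Agent.H59.BicliqueDefs

/-
Lower bound n / polylog(n) for the gap between the fractional greedy bound and the
induced subgraph density bound.  With s = 2k and 4^k vertices on each side, vertices are labelled
by vectors in (Z/s)^k in such a way that no box contains many more vectors than expected.  A pair
is easy if some coordinates agree; easy pairs are covered by 2k^2 large bicliques.  Of the
remaining pairs a random half is added to the graph.  Every induced subgraph with many edges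
contains a large easy biclique, but no biclique contains many of the added edges.
-/

set_option autoImplicit false
set_option linter.unusedSectionVars false

namespace Pool.Agent.H59.Biclique

section averaging

/-- exists an element with value at most the average -/
lemma exists_le_avg {ι : Type} [Fintype ι] [Nonempty ι] (f : ι → ℝ) (c : ℝ)
    (h : ∑ i, f i ≤ (Fintype.card ι : ℝ) * c) : ∃ i, f i ≤ c := by
  by_contra hcon
  push Not at hcon
  have : ∑ _i : ι, c < ∑ i, f i := Finset.sum_lt_sum_of_nonempty Finset.univ_nonempty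
    (fun i _ => hcon i)
  rw [Finset.sum_const, Finset.card_univ, nsmul_eq_mul] at this
  linarith

variable {Γ : Type} [AddCommGroup Γ] [Fintype Γ] [DecidableEq Γ]

/-- density of a box -/
noncomputable def dens {k : ℕ} (I : Fin k → Finset Γ) : ℝ :=
  (∏ i, ((I i).card : ℝ)) / (Fintype.card Γ : ℝ) ^ k

lemma dens_nonneg {k : ℕ} (I : Fin k → Finset Γ) : 0 ≤ dens I :=
  div_nonneg (Finset.prod_nonneg fun _ _ => Nat.cast_nonneg _) (pow_nonneg (Nat.cast_nonneg _) _)

/-- Step 1: a family of vectors which is not concentrated in boxes. -/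
lemma exists_family (n k : ℕ) : ∃ X : Fin n → (Fin k → Γ),
    ∀ I : Fin k → Finset Γ,
      (2 : ℝ) ^ (Finset.univ.filter (fun a => ∀ i, X a i ∈ I i)).card ≤
        2 ^ (k * Fintype.card Γ) * (1 + dens I) ^ n := by
  have hs0 : 0 < Fintype.card Γ := Fintype.card_pos
  obtain ⟨s, hsdef⟩ : ∃ s, s = Fintype.card Γ := ⟨_, rfl⟩
  rw [← hsdef] at hs0 ⊢
  have hs : (0 : ℝ) < s := by exact_mod_cast hs0
  have hp0 : ∀ I : Fin k → Finset Γ, 0 < 1 + dens I := fun I => by
    have := dens_nonneg I; linarith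
  obtain ⟨f, hf⟩ : ∃ f : (Fin n → (Fin k → Γ)) → (Fin k → Finset Γ) → ℝ, ∀ X I, f X I =
    2 ^ (Finset.univ.filter (fun a => ∀ i, X a i ∈ I i)).card / (1 + dens I) ^ n :=
      ⟨_, fun _ _ => rfl⟩
  have hf0 : ∀ X I, 0 ≤ f X I := fun X I => by
    rw [hf]
    exact div_nonneg (pow_nonneg (by norm_num) _) (pow_nonneg (hp0 I).le _)
  have hcardΩ : (Fintype.card (Fin k → Γ) : ℝ) = s ^ k := by
    rw [Fintype.card_fun, ← hsdef, Fintype.card_fin]; push_cast; rfl
  have hsum : ∀ I, ∑ X : Fin n → (Fin k → Γ), f X I = (s ^ k) ^ n := by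
    intro I
    have hpos : (0 : ℝ) < (1 + dens I) ^ n := pow_pos (hp0 I) n
    have h1 : ∀ X : Fin n → (Fin k → Γ),
        (2 : ℝ) ^ (Finset.univ.filter (fun a => ∀ i, X a i ∈ I i)).card =
        ∏ a : Fin n, (if ∀ i, X a i ∈ I i then (2 : ℝ) else 1) := by
      intro X
      rw [Finset.prod_ite, Finset.prod_const, Finset.prod_const_one, mul_one]
    have h2 : ∑ x : Fin k → Γ, (if ∀ i, x i ∈ I i then (2 : ℝ) else 1) =
        s ^ k * (1 + dens I) := by
      have h3 : ∀ x : Fin k → Γ, (if ∀ i, x i ∈ I i then (2 : ℝ) else 1) =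
          1 + (if x ∈ Fintype.piFinset I then 1 else 0) := by
        intro x
        by_cases hx : ∀ i, x i ∈ I i
        · rw [if_pos hx, if_pos (Fintype.mem_piFinset.2 hx)]; norm_num
        · rw [if_neg hx, if_neg (fun h => hx (Fintype.mem_piFinset.1 h))]; norm_num
      simp_rw [h3]
      rw [Finset.sum_add_distrib, Finset.sum_const, Finset.card_univ, nsmul_eq_mul, mul_one, hcardΩ,
        Finset.sum_ite_mem, Finset.univ_inter, Finset.sum_const, nsmul_eq_mul, mul_one,
        Fintype.card_piFinset]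
      rw [dens, ← hsdef, mul_add, mul_one, mul_div_cancel₀ _ (pow_pos hs k).ne']
      push_cast
      rfl
    have h5 := Fintype.sum_pow (fun x : Fin k → Γ => if ∀ i, x i ∈ I i then (2 : ℝ) else 1) n
    rw [h2, mul_pow] at h5
    rw [Finset.sum_congr rfl (fun X _ => hf X I), ← Finset.sum_div,
      Finset.sum_congr rfl (fun X _ => h1 X), ← h5]
    field_simp
  have hI : (Fintype.card (Fin k → Finset Γ) : ℝ) = 2 ^ (k * s) := by
    rw [Fintype.card_fun, Fintype.card_finset, ← hsdef, Fintype.card_fin, ← pow_mul, mul_comm]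
    push_cast; rfl
  obtain ⟨X, hX⟩ := exists_le_avg (fun X => ∑ I, f X I) (2 ^ (k * s)) (by
    rw [Finset.sum_comm]
    simp_rw [hsum]
    rw [Finset.sum_const, Finset.card_univ, nsmul_eq_mul, hI]
    rw [show (Fintype.card (Fin n → Fin k → Γ) : ℝ) = (s ^ k) ^ n by
      rw [Fintype.card_fun, Fintype.card_fin]
      push_cast
      rw [hcardΩ]]
    rw [mul_comm])
  refine ⟨X, fun I => ?_⟩
  have h1 : f X I ≤ 2 ^ (k * s) :=
    (Finset.single_le_sum (fun I _ => hf0 X I) (Finset.mem_univ I)).trans hX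
  have hpos : (0 : ℝ) < (1 + dens I) ^ n := pow_pos (hp0 I) n
  rw [hf] at h1
  rwa [div_le_iff₀ hpos] at h1

/-- Step 2: a translation such that many pairs differ in every coordinate. -/
lemma exists_shift (n k : ℕ) (X : Fin n → (Fin k → Γ)) :
    ∃ v : Fin k → Γ, (n : ℝ) ^ 2 * ((Fintype.card Γ : ℝ) - 1) ^ k ≤
      (Fintype.card Γ : ℝ) ^ k * ((Finset.univ : Finset (Fin n × Fin n)).filter
        (fun e => ∀ i, X e.1 i ≠ X e.2 i + v i)).card := by
  have hs1 : 1 ≤ Fintype.card Γ := Fintype.card_pos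
  obtain ⟨s, hsdef⟩ : ∃ s, s = Fintype.card Γ := ⟨_, rfl⟩
  rw [← hsdef] at hs1 ⊢
  have hcardΩ : (Fintype.card (Fin k → Γ) : ℝ) = s ^ k := by
    rw [Fintype.card_fun, ← hsdef, Fintype.card_fin]; push_cast; rfl
  have hsum : ∑ v : Fin k → Γ, ((((Finset.univ : Finset (Fin n × Fin n)).filter
        (fun e => ∀ i, X e.1 i ≠ X e.2 i + v i)).card : ℕ) : ℝ) =
        (n : ℝ) ^ 2 * ((s : ℝ) - 1) ^ k := by
    have h1 : ∀ v : Fin k → Γ, ((((Finset.univ : Finset (Fin n × Fin n)).filter
        (fun e => ∀ i, X e.1 i ≠ X e.2 i + v i)).card : ℕ) : ℝ) =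
        ∑ e : Fin n × Fin n, if (∀ i, X e.1 i ≠ X e.2 i + v i) then (1 : ℝ) else 0 := by
      intro v
      rw [Finset.card_filter]; push_cast; rfl
    simp_rw [h1]
    rw [Finset.sum_comm]
    have h2 : ∀ e : Fin n × Fin n, ∑ v : Fin k → Γ,
        (if (∀ i, X e.1 i ≠ X e.2 i + v i) then (1 : ℝ) else 0) = ((s : ℝ) - 1) ^ k := by
      intro e
      have h3 : ∀ v : Fin k → Γ, (if (∀ i, X e.1 i ≠ X e.2 i + v i) then (1 : ℝ) else 0) =
          if v ∈ Fintype.piFinset (fun i => (Finset.univ : Finset (Γ)).erase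
            (X e.1 i - X e.2 i)) then 1 else 0 := by
        intro v
        congr 1
        rw [Fintype.mem_piFinset]
        apply propext
        refine forall_congr' fun i => ?_
        rw [Finset.mem_erase]
        simp only [Finset.mem_univ, and_true, ne_eq, not_iff_not]
        constructor
        · intro h; rw [h]; abel
        · intro h; rw [h]; abel
      simp_rw [h3]
      rw [Finset.sum_ite_mem, Finset.univ_inter, Finset.sum_const, nsmul_eq_mul, mul_one,
        Fintype.card_piFinset]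
      simp only [Finset.card_erase_of_mem (Finset.mem_univ _), Finset.card_univ, ← hsdef,
        Finset.prod_const, Fintype.card_fin]
      push_cast [Nat.cast_sub hs1]
      rfl
    simp_rw [h2]
    rw [Finset.sum_const, Finset.card_univ, nsmul_eq_mul, Fintype.card_prod, Fintype.card_fin]
    push_cast; ring
  by_contra hcon
  push Not at hcon
  have h4 : ∑ v : Fin k → Γ, (s : ℝ) ^ k * ((((Finset.univ : Finset (Fin n × Fin n)).filter
        (fun e => ∀ i, X e.1 i ≠ X e.2 i + v i)).card : ℕ) : ℝ) <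
      ∑ _v : Fin k → Γ, (n : ℝ) ^ 2 * ((s : ℝ) - 1) ^ k :=
    Finset.sum_lt_sum_of_nonempty Finset.univ_nonempty (fun v _ => hcon v)
  rw [← Finset.mul_sum, hsum, Finset.sum_const, Finset.card_univ, nsmul_eq_mul, hcardΩ] at h4
  exact lt_irrefl _ h4

/-- Step 3: a large subset `R` of `N` such that bicliques contain few pairs of `N`. -/
lemma exists_hard {n : ℕ} (hn : 0 < n) (N : Finset (Fin n × Fin n)) :
    ∃ R ⊆ N, N.card ≤ 2 * R.card ∧ ∀ (S T : Finset (Fin n)), N ∩ S ×ˢ T ⊆ R →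
      (2 : ℝ) ^ (N ∩ S ×ˢ T).card ≤ 18 * n ^ (S.card + T.card) := by
  have hnr : (0 : ℝ) < n := by exact_mod_cast hn
  obtain ⟨w, hw⟩ : ∃ w : Finset (Fin n) × Finset (Fin n) → ℝ,
    ∀ P, w P = (1 / (n : ℝ)) ^ (P.1.card + P.2.card) := ⟨_, fun _ => rfl⟩
  have hw0 : ∀ P, 0 < w P := fun P => by rw [hw]; positivity
  obtain ⟨F, hF⟩ : ∃ F : Finset (Fin n × Fin n) → Finset (Fin n) × Finset (Fin n) → ℝ,
    ∀ R P, F R P =
    (if N ∩ P.1 ×ˢ P.2 ⊆ R then (2 : ℝ) ^ (N ∩ P.1 ×ˢ P.2).card * w P else 0) :=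
      ⟨_, fun _ _ => rfl⟩
  have hF0 : ∀ R P, 0 ≤ F R P := fun R P => by
    rw [hF]
    have := hw0 P
    split_ifs
    · exact mul_nonneg (pow_nonneg (by norm_num) _) this.le
    · exact le_rfl
  obtain ⟨Φ, hΦ⟩ : ∃ Φ : Finset (Fin n × Fin n) → ℝ, ∀ R, Φ R =
    ∑ P : Finset (Fin n) × Finset (Fin n), F R P := ⟨_, fun _ => rfl⟩
  have hC : ∑ P, w P ≤ 9 := by
    have h1 : ∑ S : Finset (Fin n), (1 / (n : ℝ)) ^ S.card = (1 + 1 / (n : ℝ)) ^ n := by
      have := Finset.sum_pow_mul_eq_add_pow (1 / (n : ℝ)) 1 (Finset.univ : Finset (Fin n))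
      simp only [one_pow, mul_one, Finset.card_univ, Fintype.card_fin, Finset.powerset_univ] at this
      rw [this, add_comm]
    have h2 : ∑ P, w P = (∑ S : Finset (Fin n), (1 / (n : ℝ)) ^ S.card) *
        (∑ S : Finset (Fin n), (1 / (n : ℝ)) ^ S.card) := by
      rw [Finset.sum_mul_sum, Fintype.sum_prod_type]
      simp_rw [hw, pow_add]
    have h3 : (1 + 1 / (n : ℝ)) ^ n ≤ 3 := by
      have h4 : 1 + 1 / (n : ℝ) ≤ Real.exp (1 / n) := by
        have := Real.add_one_le_exp (1 / (n : ℝ))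
        linarith
      calc (1 + 1 / (n : ℝ)) ^ n ≤ (Real.exp (1 / n)) ^ n := pow_le_pow_left₀ (by positivity) h4 n
        _ = Real.exp 1 := by
          rw [← Real.exp_nat_mul]; congr 1; field_simp
        _ ≤ 3 := by linarith [Real.exp_one_lt_d9]
    rw [h2, h1]
    have h5 : 0 ≤ (1 + 1 / (n : ℝ)) ^ n := by positivity
    nlinarith
  have hsumΦ : ∑ R ∈ N.powerset, Φ R = 2 ^ N.card * ∑ P, w P := by
    rw [Finset.sum_congr rfl (fun R _ => hΦ R), Finset.sum_comm, Finset.mul_sum]
    refine Finset.sum_congr rfl fun P _ => ?_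
    rw [Finset.sum_congr rfl (fun R _ => hF R P), ← Finset.sum_filter, Finset.sum_const,
      nsmul_eq_mul]
    have h1 : (N.powerset.filter (fun R => N ∩ P.1 ×ˢ P.2 ⊆ R)) =
        Finset.Icc (N ∩ P.1 ×ˢ P.2) N := by
      ext R
      rw [Finset.mem_filter, Finset.mem_powerset, Finset.mem_Icc]
      exact and_comm
    rw [h1, Finset.card_Icc_finset Finset.inter_subset_left]
    have h2 : (N ∩ P.1 ×ˢ P.2).card ≤ N.card := Finset.card_le_card Finset.inter_subset_left
    have h3 : (2 : ℝ) ^ N.card = 2 ^ (N.card - (N ∩ P.1 ×ˢ P.2).card) *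
        2 ^ (N ∩ P.1 ×ˢ P.2).card := by
      rw [← pow_add]; congr 1; omega
    rw [h3]; push_cast; ring
  have hinv : ∑ R ∈ N.powerset, Φ (N \ R) = ∑ R ∈ N.powerset, Φ R := by
    refine Finset.sum_nbij' (fun R => N \ R) (fun R => N \ R) ?_ ?_ ?_ ?_ ?_
    · intro R _; rw [Finset.mem_powerset]; exact Finset.sdiff_subset
    · intro R _; rw [Finset.mem_powerset]; exact Finset.sdiff_subset
    · intro R hR
      rw [Finset.mem_powerset] at hR
      exact Finset.sdiff_sdiff_eq_self hR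
    · intro R hR
      rw [Finset.mem_powerset] at hR
      exact Finset.sdiff_sdiff_eq_self hR
    · intro R _; rfl
  obtain ⟨R, hRN, hR⟩ : ∃ R ∈ N.powerset, Φ R + Φ (N \ R) ≤ 18 := by
    by_contra hcon
    push Not at hcon
    have h1 : ∑ _R ∈ N.powerset, (18 : ℝ) < ∑ R ∈ N.powerset, (Φ R + Φ (N \ R)) :=
      Finset.sum_lt_sum_of_nonempty ⟨∅, Finset.empty_mem_powerset N⟩ (fun R hR => hcon R hR)
    rw [Finset.sum_add_distrib, hinv, hsumΦ, Finset.sum_const, Finset.card_powerset,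
      nsmul_eq_mul] at h1
    push_cast at h1
    have h2 : (0 : ℝ) < 2 ^ N.card := by positivity
    nlinarith
  have hΦ0 : ∀ R, 0 ≤ Φ R := fun R => by
    rw [hΦ]
    exact Finset.sum_nonneg fun P _ => hF0 R P
  rw [Finset.mem_powerset] at hRN
  have key : ∀ Q : Finset (Fin n × Fin n), Φ Q ≤ 18 → ∀ (S T : Finset (Fin n)),
      N ∩ S ×ˢ T ⊆ Q → (2 : ℝ) ^ (N ∩ S ×ˢ T).card ≤ 18 * n ^ (S.card + T.card) := by
    intro Q hQ S T hST
    have h1 : F Q (S, T) ≤ Φ Q := by
      rw [hΦ]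
      exact Finset.single_le_sum (fun P _ => hF0 Q P) (Finset.mem_univ (S, T))
    rw [hF, if_pos hST, hw] at h1
    have h2 := h1.trans hQ
    simp only at h2
    rw [one_div, inv_pow, ← div_eq_mul_inv, div_le_iff₀ (by positivity)] at h2
    exact h2
  have hR1 : Φ R ≤ 18 := by have := hΦ0 (N \ R); linarith
  have hR2 : Φ (N \ R) ≤ 18 := by have := hΦ0 R; linarith
  rcases le_total N.card (2 * R.card) with h | h
  · exact ⟨R, hRN, h, key R hR1⟩
  · refine ⟨N \ R, Finset.sdiff_subset, ?_, key _ hR2⟩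
    rw [Finset.card_sdiff_of_subset hRN]
    omega

end averaging

open scoped Classical

section analysis

lemma harm_ge_min (a b : ℕ) (ha : 0 < a) (hb : 0 < b) : ((min a b : ℕ) : ℝ) / 2 ≤ harm a b := by
  have ha' : (0 : ℝ) < a := by exact_mod_cast ha
  have hb' : (0 : ℝ) < b := by exact_mod_cast hb
  rw [harm, div_le_div_iff₀ (by norm_num) (by positivity)]
  rcases le_total a b with h | h
  · rw [min_eq_left h]
    have : (a : ℝ) ≤ b := by exact_mod_cast h
    nlinarith
  · rw [min_eq_right h]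
    have : (b : ℝ) ≤ a := by exact_mod_cast h
    nlinarith

lemma harm_le (a b : ℕ) (ha : 0 < a) : harm a b ≤ ((a : ℝ) + b) / 4 := by
  have ha' : (0 : ℝ) < a := by exact_mod_cast ha
  have hb' : (0 : ℝ) ≤ b := Nat.cast_nonneg b
  rw [harm, div_le_div_iff₀ (by positivity) (by norm_num)]
  nlinarith [sq_nonneg ((a : ℝ) - b)]

variable {α β : Type} [Fintype α] [Fintype β]

lemma kappa_set_finite (G : Finset (α × β)) (A : Finset α) (B : Finset β) :
    {x : ℝ | ∃ (S : Finset α) (T : Finset β), S ⊆ A ∧ T ⊆ B ∧ IsBiclique G S T ∧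
    x = harm S.card T.card}.Finite := by
  refine (Set.finite_range (fun P : Finset α × Finset β => harm P.1.card P.2.card)).subset ?_
  rintro x ⟨S, T, -, -, -, rfl⟩
  exact ⟨(S, T), rfl⟩

lemma kappa_ge {G : Finset (α × β)} {A : Finset α} {B : Finset β} {S : Finset α} {T : Finset β}
    (hS : S ⊆ A) (hT : T ⊆ B) (h : IsBiclique G S T) : harm S.card T.card ≤ kappa G A B :=
  le_csSup (kappa_set_finite G A B).bddAbove ⟨S, T, hS, hT, h, rfl⟩

lemma kappa_half {G : Finset (α × β)} {A : Finset α} {B : Finset β}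
    (h : (G ∩ A ×ˢ B).Nonempty) : 1 / 2 ≤ kappa G A B := by
  obtain ⟨⟨a, b⟩, hab⟩ := h
  rw [Finset.mem_inter, Finset.mem_product] at hab
  have h1 : IsBiclique G {a} {b} := by
    refine ⟨Finset.singleton_nonempty a, Finset.singleton_nonempty b, ?_⟩
    rw [Finset.singleton_product_singleton, Finset.singleton_subset_iff]
    exact hab.1
  have h2 := kappa_ge (Finset.singleton_subset_iff.2 hab.2.1)
    (Finset.singleton_subset_iff.2 hab.2.2) h1
  rw [Finset.card_singleton, Finset.card_singleton, harm] at h2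
  norm_num at h2 ⊢
  linarith

lemma mu_set_finite (G : Finset (α × β)) :
    {x : ℝ | ∃ (A : Finset α) (B : Finset β), (G ∩ A ×ˢ B).Nonempty ∧
    x = ((G ∩ A ×ˢ B).card : ℝ) / kappa G A B}.Finite := by
  refine (Set.finite_range (fun P : Finset α × Finset β =>
    ((G ∩ P.1 ×ˢ P.2).card : ℝ) / kappa G P.1 P.2)).subset ?_
  rintro x ⟨A, B, -, rfl⟩
  exact ⟨(A, B), rfl⟩

lemma eta_set_finite (G E' : Finset (α × β)) :
    {x : ℝ | ∃ (S : Finset α) (T : Finset β), IsBiclique G S T ∧ (E' ∩ S ×ˢ T).Nonempty ∧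
    x = ((S.card : ℝ) + T.card) / (E' ∩ S ×ˢ T).card}.Finite := by
  refine (Set.finite_range (fun P : Finset α × Finset β =>
    ((P.1.card : ℝ) + P.2.card) / (E' ∩ P.1 ×ˢ P.2).card)).subset ?_
  rintro x ⟨A, B, -, -, rfl⟩
  exact ⟨(A, B), rfl⟩

lemma etaStar_set_finite (G : Finset (α × β)) :
    {x : ℝ | ∃ E' : Finset (α × β), E' ⊆ G ∧ E'.Nonempty ∧
      x = (E'.card : ℝ) * eta G E'}.Finite := by
  refine (Set.finite_range (fun E' : Finset (α × β) => (E'.card : ℝ) * eta G E')).subset ?_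
  rintro x ⟨A, -, -, rfl⟩
  exact ⟨A, rfl⟩

lemma single_mem_eta {G E' : Finset (α × β)} (hE : E' ⊆ G) (hne : E'.Nonempty) :
    (2 : ℝ) ∈ {x : ℝ | ∃ (S : Finset α) (T : Finset β), IsBiclique G S T ∧
      (E' ∩ S ×ˢ T).Nonempty ∧ x = ((S.card : ℝ) + T.card) / (E' ∩ S ×ˢ T).card} := by
  obtain ⟨⟨a, b⟩, hab⟩ := hne
  have h1 : E' ∩ {a} ×ˢ {b} = {(a, b)} := by
    rw [Finset.singleton_product_singleton]
    exact Finset.inter_singleton_of_mem hab
  refine ⟨{a}, {b}, ⟨Finset.singleton_nonempty a, Finset.singleton_nonempty b, ?_⟩, ?_, ?_⟩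
  · rw [Finset.singleton_product_singleton, Finset.singleton_subset_iff]
    exact hE hab
  · rw [h1]; exact Finset.singleton_nonempty _
  · rw [h1, Finset.card_singleton, Finset.card_singleton, Finset.card_singleton]; norm_num

lemma mu_pos_ge {G : Finset (α × β)} (hG : G.Nonempty) :
    (G.card : ℝ) / kappa G Finset.univ Finset.univ ≤ mu G := by
  have h1 : G ∩ (Finset.univ : Finset α) ×ˢ (Finset.univ : Finset β) = G := by
    rw [Finset.univ_product_univ, Finset.inter_univ]
  refine le_csSup (mu_set_finite G).bddAbove ⟨Finset.univ, Finset.univ, ?_, ?_⟩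
  · rw [h1]; exact hG
  · rw [h1]

lemma kappa_half' {G : Finset (α × β)} {A : Finset α} {B : Finset β} {e : α × β} (he : e ∈ G)
    (hA : e.1 ∈ A) (hB : e.2 ∈ B) : 1 / 2 ≤ kappa G A B :=
  kappa_half ⟨e, Finset.mem_inter.2 ⟨he, Finset.mem_product.2 ⟨hA, hB⟩⟩⟩

lemma mu_pos {G : Finset (α × β)} (hG : G.Nonempty) : 0 < mu G := by
  refine lt_of_lt_of_le ?_ (mu_pos_ge hG)
  have h1 : (0 : ℝ) < G.card := by exact_mod_cast hG.card_pos
  obtain ⟨e, he⟩ := hG
  have h2 : 1 / 2 ≤ kappa G Finset.univ Finset.univ :=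
    kappa_half' he (Finset.mem_univ _) (Finset.mem_univ _)
  positivity

lemma mu_le {G : Finset (α × β)} (hG : G.Nonempty) (M : ℝ)
    (h : ∀ (A : Finset α) (B : Finset β) (Q : Finset (α × β)), Q ⊆ G → Q.Nonempty →
      (∀ e ∈ Q, e.1 ∈ A ∧ e.2 ∈ B) → (Q.card : ℝ) ≤ M * kappa G A B) : mu G ≤ M := by
  refine csSup_le ?_ ?_
  · refine ⟨_, Finset.univ, Finset.univ, ?_, rfl⟩
    rw [Finset.univ_product_univ, Finset.inter_univ]; exact hG
  · rintro x ⟨A, B, hne, rfl⟩
    have hkap := kappa_half hne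
    rw [div_le_iff₀ (by linarith)]
    refine h A B _ Finset.inter_subset_left hne ?_
    intro e he
    exact Finset.mem_product.1 (Finset.mem_inter.1 he).2

lemma etaStar_ge {G E' : Finset (α × β)} (hE : E' ⊆ G) (hne : E'.Nonempty) {c : ℝ} (hc : 0 < c)
    (h : ∀ (S : Finset α) (T : Finset β) (Q : Finset (α × β)), IsBiclique G S T →
      (∀ e ∈ Q, e ∈ E' ∧ e.1 ∈ S ∧ e.2 ∈ T) → (Q.card : ℝ) ≤ c * ((S.card : ℝ) + T.card)) :
    (E'.card : ℝ) * (1 / c) ≤ etaStar G := by
  have heta : 1 / c ≤ eta G E' := by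
    refine le_csInf ⟨_, single_mem_eta hE hne⟩ ?_
    rintro x ⟨S, T, hB, hne', rfl⟩
    have hpos : (0 : ℝ) < ((E' ∩ S ×ˢ T).card : ℝ) := by exact_mod_cast hne'.card_pos
    have hb := h S T (E' ∩ S ×ˢ T) hB (fun e he => by
      rw [Finset.mem_inter, Finset.mem_product] at he; exact he)
    rw [div_le_div_iff₀ hc hpos]
    linarith
  have h1 : (E'.card : ℝ) * eta G E' ≤ etaStar G :=
    le_csSup (etaStar_set_finite G).bddAbove ⟨E', hE, hne, rfl⟩
  exact le_trans (mul_le_mul_of_nonneg_left heta (Nat.cast_nonneg _)) h1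

/-- the general upper bound -/
lemma ratio_le {n : ℕ} {G : Finset (α × β)} (hG : G.Nonempty)
    (hn : Fintype.card α + Fintype.card β ≤ n) : etaStar G / mu G ≤ n / 2 := by
  have hnr : (Fintype.card α : ℝ) + Fintype.card β ≤ n := by exact_mod_cast hn
  have hGpos : (0 : ℝ) < G.card := by exact_mod_cast hG.card_pos
  have hk1 : 1 / 2 ≤ kappa G Finset.univ Finset.univ := by
    apply kappa_half
    rw [Finset.univ_product_univ, Finset.inter_univ]; exact hG
  have hk2 : kappa G Finset.univ Finset.univ ≤ n / 4 := by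
    refine csSup_le ?_ ?_
    · obtain ⟨⟨a, b⟩, hab⟩ := hG
      refine ⟨_, {a}, {b}, Finset.subset_univ _, Finset.subset_univ _, ⟨Finset.singleton_nonempty a,
        Finset.singleton_nonempty b, ?_⟩, rfl⟩
      rw [Finset.singleton_product_singleton, Finset.singleton_subset_iff]
      exact hab
    · rintro x ⟨S, T, -, -, hB, rfl⟩
      refine (harm_le _ _ hB.1.card_pos).trans ?_
      have h1 : (S.card : ℝ) ≤ Fintype.card α := by exact_mod_cast Finset.card_le_univ S
      have h2 : (T.card : ℝ) ≤ Fintype.card β := by exact_mod_cast Finset.card_le_univ T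
      linarith
  have hmu : (G.card : ℝ) / (n / 4) ≤ mu G :=
    (div_le_div_of_nonneg_left hGpos.le (by linarith) hk2).trans (mu_pos_ge hG)
  have hnpos : (0 : ℝ) < n := by linarith
  have hmupos : 0 < mu G := lt_of_lt_of_le (by positivity) hmu
  have heta : etaStar G ≤ 2 * G.card := by
    refine csSup_le ⟨_, G, subset_rfl, hG, rfl⟩ ?_
    rintro x ⟨E', hE, hne, rfl⟩
    have h1 : eta G E' ≤ 2 := csInf_le (eta_set_finite G E').bddBelow (single_mem_eta hE hne)
    have h2 : (E'.card : ℝ) ≤ G.card := by exact_mod_cast Finset.card_le_card hE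
    have h3 : (0 : ℝ) ≤ E'.card := Nat.cast_nonneg _
    nlinarith
  rw [div_le_iff₀ hmupos]
  rw [div_le_iff₀ (by positivity)] at hmu
  nlinarith

end analysis

section construction

lemma count_le_of_pow {m J n : ℕ} {p : ℝ} (hp : 0 ≤ p)
    (h : (2 : ℝ) ^ m ≤ 2 ^ J * (1 + p) ^ n) : (m : ℝ) ≤ J + 2 * (n * p) := by
  have h1 := Real.log_le_log (by positivity) h
  rw [Real.log_pow, Real.log_mul (by positivity) (by positivity), Real.log_pow, Real.log_pow] at h1
  have h2 : Real.log (1 + p) ≤ p := by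
    have := Real.log_le_sub_one_of_pos (show 0 < 1 + p by linarith)
    linarith
  have h3 : (1 : ℝ) / 2 < Real.log 2 := by linarith [Real.log_two_gt_d9]
  have h4 : (n : ℝ) * Real.log (1 + p) ≤ n * p := mul_le_mul_of_nonneg_left h2 (Nat.cast_nonneg n)
  have h5 : 0 ≤ (n : ℝ) * p := by positivity
  have h6 : 0 < Real.log 2 := by linarith
  have h7 : (m : ℝ) * Real.log 2 ≤ (J + 2 * (n * p)) * Real.log 2 := by nlinarith
  exact le_of_mul_le_mul_right h7 h6

variable {Γ : Type} [AddCommGroup Γ] [Fintype Γ] [DecidableEq Γ]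

/-- all pairs of a rectangle are few, unless the rectangle contains a large easy biclique -/
lemma rectangle {n k : ℕ} (hk : n = 4 ^ k) (X : Fin n → (Fin k → Γ)) (v : Fin k → Γ)
    (hX : ∀ I : Fin k → Finset Γ,
      (2 : ℝ) ^ (Finset.univ.filter (fun a => ∀ i, X a i ∈ I i)).card ≤
        2 ^ (k * Fintype.card Γ) * (1 + dens I) ^ n)
    (A B : Finset (Fin n)) (K : ℕ)
    (hK : ∀ i c, min (A.filter (fun a => X a i = c)).card
      (B.filter (fun b => X b i + v i = c)).card ≤ K) :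
    (A.card : ℝ) * B.card ≤ 2 * (k * Fintype.card Γ : ℕ) * K * n +
      ((k * Fintype.card Γ : ℕ) + 2) ^ 2 * n := by
  obtain ⟨J, hJ⟩ : ∃ J : ℕ, J = k * Fintype.card Γ := ⟨_, rfl⟩
  obtain ⟨I, hI⟩ : ∃ I : Fin k → Finset Γ, ∀ i, I i = Finset.univ.filter
    (fun c => K < (A.filter (fun a => X a i = c)).card) := ⟨_, fun _ => rfl⟩
  obtain ⟨I', hI'⟩ : ∃ I' : Fin k → Finset Γ, ∀ i, I' i = Finset.univ.filter
    (fun c => c + v i ∉ I i) := ⟨_, fun _ => rfl⟩
  set A₁ := A.filter (fun a => ∃ i, X a i ∉ I i) with hA₁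
  set A₂ := A.filter (fun a => ¬ ∃ i, X a i ∉ I i) with hA₂
  set B₁ := B.filter (fun b => ∃ i, X b i + v i ∈ I i) with hB₁
  set B₂ := B.filter (fun b => ¬ ∃ i, X b i + v i ∈ I i) with hB₂
  have hAc : A₁.card + A₂.card = A.card := Finset.card_filter_add_card_filter_not _
  have hBc : B₁.card + B₂.card = B.card := Finset.card_filter_add_card_filter_not _
  have hsumcard : ∑ _i : Fin k, ∑ _c : Γ, K = J * K := by
    rw [Finset.sum_const, Finset.sum_const, Finset.card_univ, Finset.card_univ, Fintype.card_fin,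
      smul_eq_mul, smul_eq_mul, hJ]; ring
  have hA₁c : A₁.card ≤ J * K := by
    have hsub : A₁ ⊆ (Finset.univ : Finset (Fin k)).biUnion (fun i =>
        (Finset.univ.filter (fun c => c ∉ I i)).biUnion
          (fun c => A.filter (fun a => X a i = c))) := by
      intro a ha
      rw [hA₁, Finset.mem_filter] at ha
      obtain ⟨haA, i, hi⟩ := ha
      rw [Finset.mem_biUnion]
      refine ⟨i, Finset.mem_univ _, ?_⟩
      rw [Finset.mem_biUnion]
      exact ⟨X a i, by simp [hi], by simp [haA]⟩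
    refine (Finset.card_le_card hsub).trans ?_
    rw [← hsumcard]
    refine Finset.card_biUnion_le.trans (Finset.sum_le_sum fun i _ => ?_)
    refine Finset.card_biUnion_le.trans ?_
    refine (Finset.sum_le_sum (fun c hc => ?_)).trans
      (Finset.sum_le_sum_of_subset (Finset.filter_subset _ _))
    rw [Finset.mem_filter, hI, Finset.mem_filter, not_and, not_lt] at hc
    exact hc.2 (Finset.mem_univ _)
  have hB₁c : B₁.card ≤ J * K := by
    have hsub : B₁ ⊆ (Finset.univ : Finset (Fin k)).biUnion (fun i =>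
        (I i).biUnion (fun c => B.filter (fun b => X b i + v i = c))) := by
      intro b hb
      rw [hB₁, Finset.mem_filter] at hb
      obtain ⟨hbB, i, hi⟩ := hb
      rw [Finset.mem_biUnion]
      refine ⟨i, Finset.mem_univ _, ?_⟩
      rw [Finset.mem_biUnion]
      exact ⟨X b i + v i, hi, by simp [hbB]⟩
    refine (Finset.card_le_card hsub).trans ?_
    rw [← hsumcard]
    refine Finset.card_biUnion_le.trans (Finset.sum_le_sum fun i _ => ?_)
    refine Finset.card_biUnion_le.trans ?_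
    refine (Finset.sum_le_sum (fun c hc => ?_)).trans
      (Finset.sum_le_sum_of_subset (Finset.subset_univ _))
    rw [hI, Finset.mem_filter] at hc
    have := hK i c
    rw [min_le_iff] at this
    rcases this with h | h
    · exact absurd hc.2 (not_lt.2 h)
    · exact h
  have hA₂c : (A₂.card : ℝ) ≤ J + 2 * (n * dens I) := by
    have h1 := count_le_of_pow (dens_nonneg I) (hX I)
    rw [← hJ] at h1
    refine le_trans ?_ h1
    have hsub : A₂ ⊆ Finset.univ.filter (fun a => ∀ i, X a i ∈ I i) := by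
      intro a ha
      rw [hA₂, Finset.mem_filter] at ha
      push Not at ha
      simp [ha.2]
    exact_mod_cast Finset.card_le_card hsub
  have hB₂c : (B₂.card : ℝ) ≤ J + 2 * (n * dens I') := by
    have h1 := count_le_of_pow (dens_nonneg I') (hX I')
    rw [← hJ] at h1
    refine le_trans ?_ h1
    have hsub : B₂ ⊆ Finset.univ.filter (fun a => ∀ i, X a i ∈ I' i) := by
      intro b hb
      rw [hB₂, Finset.mem_filter] at hb
      push Not at hb
      rw [Finset.mem_filter]
      refine ⟨Finset.mem_univ _, fun i => ?_⟩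
      rw [hI', Finset.mem_filter]
      exact ⟨Finset.mem_univ _, hb.2 i⟩
    exact_mod_cast Finset.card_le_card hsub
  -- densities
  have hspos : (0 : ℝ) < Fintype.card Γ := by exact_mod_cast Fintype.card_pos
  have hcardI' : ∀ i, ((I' i).card : ℝ) = Fintype.card Γ - (I i).card := by
    intro i
    have h1 : I' i = (Finset.univ.filter (fun c => c ∉ I i)).image (fun c => c - v i) := by
      ext c
      rw [hI', Finset.mem_filter, Finset.mem_image]
      constructor
      · rintro ⟨-, h⟩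
        exact ⟨c + v i, by simp [h], by abel⟩
      · rintro ⟨d, hd, rfl⟩
        rw [Finset.mem_filter] at hd
        refine ⟨Finset.mem_univ _, ?_⟩
        have : d - v i + v i = d := by abel
        rw [this]; exact hd.2
    have h2 : (Finset.univ.filter (fun c => c ∉ I i)) = (I i)ᶜ := by ext; simp
    rw [h1, Finset.card_image_of_injective _ (fun a b hab => sub_left_injective hab), h2,
      Finset.card_compl, Nat.cast_sub (Finset.card_le_univ _)]
  have hdd : dens I * dens I' ≤ 1 / n := by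
    rw [dens, dens, div_mul_div_comm, ← Finset.prod_mul_distrib]
    have h1 : ∏ i, (((I i).card : ℝ) * (I' i).card) ≤
        ∏ _i : Fin k, ((Fintype.card Γ : ℝ) ^ 2 / 4) := by
      refine Finset.prod_le_prod (fun i _ => by positivity) (fun i _ => ?_)
      rw [hcardI']
      nlinarith [sq_nonneg ((Fintype.card Γ : ℝ) - 2 * (I i).card)]
    rw [Finset.prod_const, Finset.card_univ, Fintype.card_fin] at h1
    rw [hk]
    push_cast
    rw [div_le_div_iff₀ (by positivity) (by positivity)]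
    calc (∏ i, (((I i).card : ℝ) * (I' i).card)) * 4 ^ k
        ≤ ((Fintype.card Γ : ℝ) ^ 2 / 4) ^ k * 4 ^ k :=
          mul_le_mul_of_nonneg_right h1 (by positivity)
      _ = 1 * ((Fintype.card Γ : ℝ) ^ k * (Fintype.card Γ : ℝ) ^ k) := by
          rw [div_pow, ← pow_mul, two_mul, pow_add]; field_simp
  have hd1 : ∀ L : Fin k → Finset Γ, dens L ≤ 1 := by
    intro L
    rw [dens, div_le_one (by positivity)]
    calc ∏ i, ((L i).card : ℝ) ≤ ∏ _i : Fin k, (Fintype.card Γ : ℝ) :=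
          Finset.prod_le_prod (fun i _ => by positivity)
            (fun i _ => by exact_mod_cast Finset.card_le_univ _)
      _ = _ := by rw [Finset.prod_const, Finset.card_univ, Fintype.card_fin]
  have hn1 : (1 : ℝ) ≤ n := by
    have : 0 < n := by rw [hk]; positivity
    exact_mod_cast this
  have h22 : (A₂.card : ℝ) * B₂.card ≤ (J + 2) ^ 2 * n := by
    have hJ0 : (0 : ℝ) ≤ J := Nat.cast_nonneg J
    have e1 := dens_nonneg I
    have e2 := dens_nonneg I'
    have e3 := hd1 I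
    have e4 := hd1 I'
    have h1 : (A₂.card : ℝ) * B₂.card ≤ (J + 2 * (n * dens I)) * (J + 2 * (n * dens I')) :=
      mul_le_mul hA₂c hB₂c (by positivity) (by positivity)
    refine h1.trans ?_
    have h2 : (n : ℝ) * (n * (dens I * dens I')) ≤ n := by
      have : (n : ℝ) * (dens I * dens I') ≤ 1 := by
        have := mul_le_mul_of_nonneg_left hdd (by linarith : (0 : ℝ) ≤ n)
        rwa [mul_one_div_cancel (by linarith)] at this
      nlinarith
    have h3 : (J : ℝ) * (n * dens I) ≤ J * n := by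
      apply mul_le_mul_of_nonneg_left _ hJ0
      nlinarith
    have h4 : (J : ℝ) * (n * dens I') ≤ J * n := by
      apply mul_le_mul_of_nonneg_left _ hJ0
      nlinarith
    have h5 : (J : ℝ) ^ 2 ≤ J ^ 2 * n := by nlinarith [sq_nonneg (J : ℝ)]
    nlinarith
  rw [← hJ]
  have hAr : (A.card : ℝ) = A₁.card + A₂.card := by rw [← hAc]; push_cast; ring
  have hBr : (B.card : ℝ) = B₁.card + B₂.card := by rw [← hBc]; push_cast; ring
  have hAn : (A.card : ℝ) ≤ n := by
    have := Finset.card_le_univ A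
    rw [Fintype.card_fin] at this
    exact_mod_cast this
  have hBn : (B.card : ℝ) ≤ n := by
    have := Finset.card_le_univ B
    rw [Fintype.card_fin] at this
    exact_mod_cast this
  have hA₁r : (A₁.card : ℝ) ≤ J * K := by exact_mod_cast hA₁c
  have hB₁r : (B₁.card : ℝ) ≤ J * K := by exact_mod_cast hB₁c
  have e0 : (A.card : ℝ) * B.card = A₁.card * B.card + A₂.card * B₁.card + A₂.card * B₂.card := by
    rw [hAr, hBr]; ring
  have e1 : (A₁.card : ℝ) * B.card ≤ (J * K) * n :=
    mul_le_mul hA₁r hBn (by positivity) (by positivity)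
  have e2 : (A₂.card : ℝ) * B₁.card ≤ n * (J * K) := by
    refine mul_le_mul ?_ hB₁r (by positivity) (by positivity)
    have : (0 : ℝ) ≤ A₁.card := Nat.cast_nonneg _
    linarith
  rw [e0]
  linarith

end construction


section final

lemma main_lower (k : ℕ) (hk : 1 ≤ k) : ∃ G : Finset (Fin (4 ^ k) × Fin (4 ^ k)),
    G.Nonempty ∧ (∀ a, ∃ b, (a, b) ∈ G) ∧ (∀ b, ∃ a, (a, b) ∈ G) ∧
    (4 : ℝ) ^ k / (16 * (2 * k + 3) * (2 * k ^ 2 + 2) ^ 2) ≤ etaStar G / mu G := by
  obtain ⟨n, hn⟩ : ∃ n : ℕ, n = 4 ^ k := ⟨_, rfl⟩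
  rw [← hn]
  have hnr : (n : ℝ) = 4 ^ k := by rw [hn]; push_cast; rfl
  rw [← hnr]
  have hn0 : 0 < n := by rw [hn]; positivity
  have hn1 : (1 : ℝ) ≤ n := by exact_mod_cast hn0
  have : NeZero (2 * k) := ⟨by omega⟩
  have hcard : Fintype.card (ZMod (2 * k)) = 2 * k := ZMod.card _
  obtain ⟨X, hX⟩ := exists_family (Γ := ZMod (2 * k)) n k
  obtain ⟨v, hv⟩ := exists_shift (Γ := ZMod (2 * k)) n k X
  obtain ⟨N, hN⟩ : ∃ N : Finset (Fin n × Fin n), N = (Finset.univ : Finset (Fin n × Fin n)).filter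
        (fun e => ∀ i, X e.1 i ≠ X e.2 i + v i) := ⟨_, rfl⟩
  have hNmem : ∀ e, e ∈ N ↔ ∀ i, X e.1 i ≠ X e.2 i + v i := by
    intro e; rw [hN, Finset.mem_filter]; simp
  rw [← hN, hcard] at hv
  obtain ⟨R, hRN, hR2, hR⟩ := exists_hard hn0 N
  obtain ⟨z, hz⟩ : ∃ z : Fin n, z = ⟨0, hn0⟩ := ⟨_, rfl⟩
  obtain ⟨G, hG⟩ : ∃ G : Finset (Fin n × Fin n), ∀ e, e ∈ G ↔
      (e.1 = z ∨ e.2 = z ∨ e ∉ N ∨ e ∈ R) :=
    ⟨Finset.univ.filter (fun e => e.1 = z ∨ e.2 = z ∨ e ∉ N ∨ e ∈ R), fun e => by simp⟩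
  have hRG : R ⊆ G := fun e he => (hG e).2 (Or.inr (Or.inr (Or.inr he)))
  -- size of N and R
  have hkr : (1 : ℝ) ≤ k := by exact_mod_cast hk
  have hNcard : (n : ℝ) ^ 2 / 2 ≤ N.card := by
    have h1 : (1 : ℝ) / 2 ≤ (1 - 1 / (2 * k)) ^ k := by
      have := one_add_mul_le_pow (show (-2 : ℝ) ≤ -(1 / (2 * k)) by
        have : (1 : ℝ) / (2 * k) ≤ 1 := by
          rw [div_le_one (by linarith)]; linarith
        linarith) k
      have e : 1 + (k : ℝ) * -(1 / (2 * k)) = 1 / 2 := by field_simp; ring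
      rw [e] at this
      rw [sub_eq_add_neg]
      exact this
    have h2 : ((2 * k : ℕ) : ℝ) ^ k * (1 - 1 / (2 * k)) ^ k = (((2 * k : ℕ) : ℝ) - 1) ^ k := by
      rw [← mul_pow]; congr 1; push_cast; field_simp
    have hpos : (0 : ℝ) < ((2 * k : ℕ) : ℝ) ^ k := by
      apply pow_pos; push_cast; linarith
    rw [← h2] at hv
    have h3 : ((2 * k : ℕ) : ℝ) ^ k * ((n : ℝ) ^ 2 / 2) ≤ ((2 * k : ℕ) : ℝ) ^ k * N.card := by
      refine le_trans ?_ hv
      have h4 : (n : ℝ) ^ 2 / 2 ≤ (n : ℝ) ^ 2 * (1 - 1 / (2 * k)) ^ k := by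
        have : (0 : ℝ) ≤ (n : ℝ) ^ 2 := sq_nonneg _
        nlinarith
      calc ((2 * k : ℕ) : ℝ) ^ k * ((n : ℝ) ^ 2 / 2)
          ≤ ((2 * k : ℕ) : ℝ) ^ k * ((n : ℝ) ^ 2 * (1 - 1 / (2 * k)) ^ k) :=
            mul_le_mul_of_nonneg_left h4 hpos.le
        _ = _ := by ring
    exact le_of_mul_le_mul_left h3 hpos
  have hRcard : (n : ℝ) ^ 2 / 4 ≤ R.card := by
    have : (N.card : ℝ) ≤ 2 * R.card := by exact_mod_cast hR2
    linarith
  have hRne : R.Nonempty := by
    rw [← Finset.card_pos]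
    have : (0 : ℝ) < R.card := lt_of_lt_of_le (by positivity) hRcard
    exact_mod_cast this
  have hGne : G.Nonempty := hRne.mono hRG
  refine ⟨G, hGne, fun a => ⟨z, (hG _).2 (Or.inr (Or.inl rfl))⟩,
    fun b => ⟨z, (hG _).2 (Or.inl rfl)⟩, ?_⟩
  -- lower bound for etaStar
  have hstar0 : (R.card : ℝ) * (1 / (2 * k + 3)) ≤ etaStar G := by
    refine etaStar_ge hRG hRne (by positivity) ?_
    intro S T Q hB hQ
    set S₀ := S.erase z with hS₀
    set T₀ := T.erase z with hT₀
    have hsub : N ∩ S₀ ×ˢ T₀ ⊆ R := by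
      intro e he
      rw [Finset.mem_inter, Finset.mem_product, hS₀, hT₀, Finset.mem_erase, Finset.mem_erase] at he
      have h1 : e ∈ G := hB.2.2 (Finset.mem_product.2 ⟨he.2.1.2, he.2.2.2⟩)
      rw [hG] at h1
      rcases h1 with h | h | h | h
      · exact absurd h he.2.1.1
      · exact absurd h he.2.2.1
      · exact absurd he.1 h
      · exact h
    have h1 := hR S₀ T₀ hsub
    have h2 : (N ∩ S₀ ×ˢ T₀).card < 5 + 2 * k * (S.card + T.card) := by
      have h3 : (2 : ℝ) ^ (N ∩ S₀ ×ˢ T₀).card < 2 ^ (5 + 2 * k * (S.card + T.card)) := by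
        refine lt_of_le_of_lt h1 ?_
        have h4 : (n : ℝ) ^ (S₀.card + T₀.card) ≤ (n : ℝ) ^ (S.card + T.card) :=
          pow_le_pow_right₀ hn1 (Nat.add_le_add (Finset.card_erase_le) (Finset.card_erase_le))
        have h5 : (n : ℝ) ^ (S.card + T.card) = 2 ^ (2 * k * (S.card + T.card)) := by
          rw [hnr, show (4 : ℝ) = 2 ^ 2 by norm_num, ← pow_mul, ← pow_mul, mul_assoc]
        have h6 : (0 : ℝ) < 2 ^ (2 * k * (S.card + T.card)) := by positivity
        rw [h5] at h4
        calc (18 : ℝ) * (n : ℝ) ^ (S₀.card + T₀.card) ≤ 18 * 2 ^ (2 * k * (S.card + T.card)) := by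
              linarith
          _ < 2 ^ 5 * 2 ^ (2 * k * (S.card + T.card)) := by linarith
          _ = 2 ^ (5 + 2 * k * (S.card + T.card)) := by rw [pow_add]
      exact (pow_lt_pow_iff_right₀ (by norm_num : (1 : ℝ) < 2)).1 h3
    have h7 : Q ⊆ (N ∩ S₀ ×ˢ T₀) ∪ ({z} ×ˢ T ∪ S ×ˢ {z}) := by
      intro e he
      have he' := hQ e he
      rw [Finset.mem_union, Finset.mem_union, Finset.mem_inter, Finset.mem_product,
        Finset.mem_product, Finset.mem_product, Finset.mem_singleton, Finset.mem_singleton,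
        hS₀, hT₀, Finset.mem_erase, Finset.mem_erase]
      by_cases h8 : e.1 = z
      · exact Or.inr (Or.inl ⟨h8, he'.2.2⟩)
      · by_cases h9 : e.2 = z
        · exact Or.inr (Or.inr ⟨he'.2.1, h9⟩)
        · exact Or.inl ⟨hRN he'.1, ⟨h8, he'.2.1⟩, ⟨h9, he'.2.2⟩⟩
    have h8 := (Finset.card_le_card h7).trans ((Finset.card_union_le _ _).trans
      (Nat.add_le_add_left (Finset.card_union_le _ _) _))
    rw [Finset.card_product, Finset.card_product, Finset.card_singleton, one_mul, mul_one] at h8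
    have hS1 : 1 ≤ S.card := hB.1.card_pos
    have hT1 : 1 ≤ T.card := hB.2.1.card_pos
    have h9 : Q.card ≤ (2 * k + 3) * (S.card + T.card) := by
      have : (2 * k + 3) * (S.card + T.card) = 2 * k * (S.card + T.card) + 3 * (S.card + T.card) := by
        ring
      omega
    exact_mod_cast h9
  have hstar : (n : ℝ) ^ 2 / 4 * (1 / (2 * k + 3)) ≤ etaStar G := by
    refine le_trans ?_ hstar0
    exact mul_le_mul_of_nonneg_right hRcard (by positivity)
  -- upper bound for mu
  have hmu : mu G ≤ 4 * (2 * k ^ 2 + 2) ^ 2 * n := by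
    refine mu_le hGne _ ?_
    intro A B Q hQG hQne hQ
    have hkap : 1 / 2 ≤ kappa G A B := by
      obtain ⟨e, he⟩ := hQne
      exact kappa_half' (hQG he) (hQ e he).1 (hQ e he).2
    -- size of the largest easy biclique
    obtain ⟨K, hK⟩ : ∃ K : ℕ, K = (Finset.univ : Finset (Fin k × ZMod (2 * k))).sup
      (fun P => min (A.filter (fun a => X a P.1 = P.2)).card
        (B.filter (fun b => X b P.1 + v P.1 = P.2)).card) := ⟨_, rfl⟩
    have hKle : ∀ i c, min (A.filter (fun a => X a i = c)).card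
        (B.filter (fun b => X b i + v i = c)).card ≤ K := by
      intro i c
      rw [hK]
      exact Finset.le_sup (f := fun P : Fin k × ZMod (2 * k) =>
        min (A.filter (fun a => X a P.1 = P.2)).card
        (B.filter (fun b => X b P.1 + v P.1 = P.2)).card) (Finset.mem_univ (i, c))
    have hrect := rectangle hn X v hX A B K hKle
    have hKkap : (K : ℝ) ≤ 2 * kappa G A B := by
      rcases Nat.eq_zero_or_pos K with h0 | hpos
      · rw [h0]; push_cast; linarith
      · have hpne : (Finset.univ : Finset (Fin k × ZMod (2 * k))).Nonempty := by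
          have : Nonempty (Fin k) := ⟨⟨0, by omega⟩⟩
          exact Finset.univ_nonempty
        obtain ⟨⟨i, c⟩, -, hic⟩ := Finset.exists_mem_eq_sup _ hpne
          (fun P : Fin k × ZMod (2 * k) => min (A.filter (fun a => X a P.1 = P.2)).card
            (B.filter (fun b => X b P.1 + v P.1 = P.2)).card)
        rw [← hK] at hic
        simp only at hic
        have hA1 : 0 < (A.filter (fun a => X a i = c)).card := by
          have := min_le_left (A.filter (fun a => X a i = c)).card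
            (B.filter (fun b => X b i + v i = c)).card
          omega
        have hB1 : 0 < (B.filter (fun b => X b i + v i = c)).card := by
          have := min_le_right (A.filter (fun a => X a i = c)).card
            (B.filter (fun b => X b i + v i = c)).card
          omega
        have hbi : IsBiclique G (A.filter (fun a => X a i = c))
            (B.filter (fun b => X b i + v i = c)) := by
          refine ⟨Finset.card_pos.1 hA1, Finset.card_pos.1 hB1, ?_⟩
          intro e he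
          rw [Finset.mem_product, Finset.mem_filter, Finset.mem_filter] at he
          refine (hG e).2 (Or.inr (Or.inr (Or.inl ?_)))
          rw [hNmem]
          push Not
          exact ⟨i, by rw [he.1.2, he.2.2]⟩
        have h1 := kappa_ge (Finset.filter_subset _ _) (Finset.filter_subset _ _) hbi
        have h2 := harm_ge_min _ _ hA1 hB1
        rw [← hic] at h2
        linarith
    have hle : (Q.card : ℝ) ≤ (A.card : ℝ) * B.card := by
      have h1 : Q ⊆ A ×ˢ B := fun e he => Finset.mem_product.2 (hQ e he)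
      have h2 := Finset.card_le_card h1
      rw [Finset.card_product] at h2
      exact_mod_cast h2
    refine hle.trans (hrect.trans ?_)
    rw [hcard]
    push_cast
    have hk2 : (0 : ℝ) ≤ (k : ℝ) * (2 * k) := by positivity
    have e1 : 2 * ((k : ℝ) * (2 * k)) * K * n ≤ 2 * ((k : ℝ) * (2 * k)) * (2 * kappa G A B) * n := by
      apply mul_le_mul_of_nonneg_right _ (by positivity)
      exact mul_le_mul_of_nonneg_left hKkap (by positivity)
    have e2 : ((k : ℝ) * (2 * k) + 2) ^ 2 * n ≤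
        ((k : ℝ) * (2 * k) + 2) ^ 2 * n * (2 * kappa G A B) := by
      have : (0 : ℝ) ≤ ((k : ℝ) * (2 * k) + 2) ^ 2 * n := by positivity
      nlinarith
    have e3 : 2 * ((k : ℝ) * (2 * k)) * (2 * kappa G A B) * n ≤
        ((k : ℝ) * (2 * k) + 2) ^ 2 * n * (2 * kappa G A B) := by
      have h1 : 2 * ((k : ℝ) * (2 * k)) ≤ ((k : ℝ) * (2 * k) + 2) ^ 2 := by nlinarith
      have h2 : 0 ≤ (2 * kappa G A B) * n := by positivity
      calc 2 * ((k : ℝ) * (2 * k)) * (2 * kappa G A B) * n =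
          2 * ((k : ℝ) * (2 * k)) * ((2 * kappa G A B) * n) := by ring
        _ ≤ ((k : ℝ) * (2 * k) + 2) ^ 2 * ((2 * kappa G A B) * n) :=
          mul_le_mul_of_nonneg_right h1 h2
        _ = _ := by ring
    have e4 : 4 * (2 * (k : ℝ) ^ 2 + 2) ^ 2 * n * kappa G A B =
        2 * (((k : ℝ) * (2 * k) + 2) ^ 2 * n * (2 * kappa G A B)) := by ring
    rw [e4]
    linarith
  have hmupos : 0 < mu G := mu_pos hGne
  rw [div_le_div_iff₀ (by positivity) hmupos]
  calc (n : ℝ) * mu G ≤ n * (4 * (2 * k ^ 2 + 2) ^ 2 * n) :=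
        mul_le_mul_of_nonneg_left hmu (by linarith)
    _ = ((n : ℝ) ^ 2 / 4 * (1 / (2 * k + 3))) * (16 * (2 * k + 3) * (2 * k ^ 2 + 2) ^ 2) := by
        field_simp
        norm_num
    _ ≤ _ := mul_le_mul_of_nonneg_right hstar (by positivity)

/-- `g(n)` equals `n` up to a power of `log n`. -/
theorem main (n : ℕ) (hn : 8 ≤ n) :
    (n : ℝ) / (10240 * Real.log n ^ 5) ≤ g n ∧ g n ≤ n / 2 := by
  have hbdd : ∀ x ∈ {x : ℝ | ∃ (α β : Type) (_ : Fintype α) (_ : Fintype β) (G : Finset (α × β)),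
      G.Nonempty ∧ (∀ a, ∃ b, (a, b) ∈ G) ∧ (∀ b, ∃ a, (a, b) ∈ G) ∧
      Fintype.card α + Fintype.card β ≤ n ∧ x = etaStar G / mu G}, x ≤ n / 2 := by
    rintro x ⟨α, β, _, _, G, hG, -, -, hcard, rfl⟩
    exact ratio_le hG hcard
  -- choice of k
  obtain ⟨k, hk1, hk2, hk3⟩ : ∃ k : ℕ, 1 ≤ k ∧ 2 * 4 ^ k ≤ n ∧ n < 8 * 4 ^ k := by
    have hn2 : n / 2 ≠ 0 := by omega
    refine ⟨Nat.log 4 (n / 2), ?_, ?_, ?_⟩
    · rw [Nat.one_le_iff_ne_zero, ← Nat.pos_iff_ne_zero]
      exact Nat.log_pos (by norm_num) (by omega)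
    · have := Nat.pow_log_le_self 4 hn2
      omega
    · have := Nat.lt_pow_succ_log_self (b := 4) (by norm_num) (n / 2)
      rw [pow_succ] at this
      omega
  have hnr : (8 : ℝ) ≤ n := by exact_mod_cast hn
  have hlog : (k : ℝ) ≤ Real.log n := by
    have h1 : (4 : ℝ) ^ k ≤ n := by
      have : 4 ^ k ≤ n := by omega
      exact_mod_cast this
    have h2 := Real.log_le_log (by positivity) h1
    rw [Real.log_pow] at h2
    have h3 : (1 : ℝ) ≤ Real.log 4 := by
      rw [show (4 : ℝ) = 2 * 2 by norm_num, Real.log_mul (by norm_num) (by norm_num)]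
      linarith [Real.log_two_gt_d9]
    have hk0 : (0 : ℝ) ≤ k := Nat.cast_nonneg k
    nlinarith
  have hkr : (1 : ℝ) ≤ k := by exact_mod_cast hk1
  obtain ⟨G, hG, hi1, hi2, hle⟩ := main_lower k hk1
  have hmem : etaStar G / mu G ∈ {x : ℝ | ∃ (α β : Type) (_ : Fintype α) (_ : Fintype β)
      (G : Finset (α × β)),
      G.Nonempty ∧ (∀ a, ∃ b, (a, b) ∈ G) ∧ (∀ b, ∃ a, (a, b) ∈ G) ∧
      Fintype.card α + Fintype.card β ≤ n ∧ x = etaStar G / mu G} := by
    refine ⟨Fin (4 ^ k), Fin (4 ^ k), inferInstance, inferInstance, G, hG, hi1, hi2, ?_, rfl⟩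
    rw [Fintype.card_fin]; omega
  constructor
  · refine le_trans ?_ (le_csSup ⟨_, hbdd⟩ hmem)
    refine le_trans ?_ hle
    have h1 : (n : ℝ) ≤ 8 * 4 ^ k := by exact_mod_cast hk3.le
    have h2 : (16 * (2 * (k : ℝ) + 3) * (2 * k ^ 2 + 2) ^ 2) ≤ 1280 * k ^ 5 := by
      have e1 : 2 * (k : ℝ) + 3 ≤ 5 * k := by linarith
      have e2 : 2 * (k : ℝ) ^ 2 + 2 ≤ 4 * k ^ 2 := by nlinarith
      have e3 : (2 * (k : ℝ) ^ 2 + 2) ^ 2 ≤ (4 * k ^ 2) ^ 2 := pow_le_pow_left₀ (by positivity) e2 2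
      calc (16 * (2 * (k : ℝ) + 3) * (2 * k ^ 2 + 2) ^ 2)
          ≤ (16 * (5 * k)) * (4 * k ^ 2) ^ 2 :=
            mul_le_mul (by linarith) e3 (by positivity) (by positivity)
        _ = 1280 * k ^ 5 := by ring
    have h3 : (k : ℝ) ^ 5 ≤ Real.log n ^ 5 := pow_le_pow_left₀ (by positivity) hlog 5
    have hlpos : 0 < Real.log n := by linarith
    rw [div_le_div_iff₀ (by positivity) (by positivity)]
    calc (n : ℝ) * (16 * (2 * (k : ℝ) + 3) * (2 * k ^ 2 + 2) ^ 2)
        ≤ (8 * 4 ^ k) * (1280 * Real.log n ^ 5) :=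
          mul_le_mul h1 (by linarith) (by positivity) (by positivity)
      _ = 4 ^ k * (10240 * Real.log n ^ 5) := by ring
  · exact csSup_le ⟨_, hmem⟩ hbdd

end final

end Pool.Agent.H59.Biclique
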