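import Mathlib


set_option autoImplicit false

namespace Pool.Agent.H59.IndGrowth
open Equiv

/-- A set of finite permutations, graded by length. -/
abbrev PermSet : Type := (n : ℕ) → Set (Perm (Fin n))

/-- `π` contains `σ`: some subsequence of `π` is order isomorphic to `σ`. -/
def Contains {n k : ℕ} (π : Perm (Fin n)) (σ : Perm (Fin k)) : Prop :=
  ∃ f : Fin k ↪o Fin n, ∀ i j, σ i < σ j ↔ π (f i) < π (f j)

/-- A permutation class: a set of permutations closed under containment. -/
def IsClass (C : PermSet) : Prop :=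
  ∀ ⦃n k : ℕ⦄ (π : Perm (Fin n)) (σ : Perm (Fin k)), π ∈ C n → Contains π σ → σ ∈ C k

/-- The direct sum of two permutations. -/
def dsum {k m : ℕ} (σ : Perm (Fin k)) (τ : Perm (Fin m)) : Perm (Fin (k + m)) :=
  finSumFinEquiv.permCongr (Equiv.sumCongr σ τ)

/-- Closure under direct sums. -/
def SumClosed (C : PermSet) : Prop :=
  ∀ ⦃k m : ℕ⦄ (σ : Perm (Fin k)) (τ : Perm (Fin m)), σ ∈ C k → τ ∈ C m → dsum σ τ ∈ C (k + m)

/-- Indecomposable: not the direct sum of two nonempty permutations. -/
def Indecomposable {n : ℕ} (π : Perm (Fin n)) : Prop :=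
  ¬ ∃ (k m : ℕ) (h : k + m = n) (σ : Perm (Fin k)) (τ : Perm (Fin m)),
    0 < k ∧ 0 < m ∧ π = (finCongr h).permCongr (dsum σ τ)

/-- The indecomposable members of a set of permutations. -/
def ind (C : PermSet) : PermSet := fun n => {π | π ∈ C n ∧ Indecomposable π}

/-- Upper growth rate: limsup of the n-th roots of the number of members of length n. -/
noncomputable def upperGrowth (X : PermSet) : ENNReal :=
  Filter.limsup (fun n : ℕ => ((X n).ncard : ENNReal) ^ (1 / (n : ℝ))) Filter.atTop

end Pool.Agent.H59.IndGrowth
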