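import Pool.Agent.H59.IndGrowthDefs

/-
There are sum closed permutation classes whose indecomposables have upper growth rate larger
than 1 but as close to 1 as desired.  The classes: take the infinite increasing oscillation
(whose inversion graph is a two-way infinite path), attach a pendant entry to every K-th entry
(K even), and take all finite direct sums of finite subpermutations of this pattern.
The indecomposable subpermutations are the intervals of the oscillation together with an
arbitrary set of the pendant entries attached to them.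
-/

set_option autoImplicit false
set_option linter.unusedSimpArgs false

namespace Pool.Agent.H59.IndGrowth
open Equiv

section basics

lemma dsum_castAdd {k m : ℕ} (σ : Perm (Fin k)) (τ : Perm (Fin m)) (i : Fin k) :
    dsum σ τ (Fin.castAdd m i) = Fin.castAdd m (σ i) := by
  simp [dsum]

lemma dsum_natAdd {k m : ℕ} (σ : Perm (Fin k)) (τ : Perm (Fin m)) (i : Fin m) :
    dsum σ τ (Fin.natAdd k i) = Fin.natAdd k (τ i) := by
  simp [dsum]

lemma indec_iff {n : ℕ} (π : Perm (Fin n)) :
    Indecomposable π ↔ ∀ k, 0 < k → k < n → ∃ i : Fin n, (i : ℕ) < k ∧ k ≤ (π i : ℕ) := by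
  constructor
  · intro h k hk hkn
    by_contra hcon
    push Not at hcon
    apply h
    obtain ⟨m, rfl⟩ : ∃ m, n = k + m := ⟨n - k, by omega⟩
    have hmaps : Set.MapsTo (finSumFinEquiv.symm.permCongr π) (Set.range (Sum.inl : Fin k → Fin k ⊕ Fin m))
        (Set.range Sum.inl) := by
      rintro _ ⟨i, rfl⟩
      have h1 := hcon (Fin.castAdd m i) (by simp)
      refine ⟨⟨(π (Fin.castAdd m i) : ℕ), h1⟩, ?_⟩
      rw [Equiv.permCongr_apply, Equiv.symm_symm, finSumFinEquiv_apply_left, Equiv.eq_symm_apply,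
        finSumFinEquiv_apply_left]
      ext; simp
    have h2 := Equiv.Perm.mem_sumCongrHom_range_of_perm_mapsTo_inl hmaps
    rw [MonoidHom.mem_range] at h2
    obtain ⟨⟨σ, τ⟩, hst⟩ := h2
    refine ⟨k, m, rfl, σ, τ, hk, by omega, ?_⟩
    rw [Equiv.Perm.sumCongrHom_apply] at hst
    have h3 : π = finSumFinEquiv.permCongr (finSumFinEquiv.symm.permCongr π) := by
      ext i; simp
    rw [h3, ← hst]
    ext i
    simp [dsum]
  · rintro h ⟨k, m, rfl, σ, τ, hk, hm, hπ⟩
    obtain ⟨i, hi, hki⟩ := h k hk (by omega)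
    have h1 : i = Fin.castAdd m ⟨i, hi⟩ := by ext; simp
    have h3 : (π i : ℕ) = (σ ⟨i, hi⟩ : ℕ) := by
      rw [hπ]
      change ((dsum σ τ i : Fin (k + m)) : ℕ) = _
      conv_lhs => rw [h1]
      rw [dsum_castAdd]
      simp
    have h2 := (σ ⟨i, hi⟩).2
    omega

/-- an indecomposable permutation cannot be cut -/
lemma no_cut {n : ℕ} {π : Perm (Fin n)} (h : Indecomposable π) (A : Finset (Fin n))
    (hA : A.Nonempty) (hB : (Aᶜ).Nonempty) :
    ¬ (∀ i ∈ A, ∀ j ∉ A, i < j ∧ π i < π j) := by
  intro hcut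
  rw [indec_iff] at h
  have hAn : A.card < n := by
    have h1 : A.card + (Aᶜ).card = n := by
      rw [Finset.card_add_card_compl, Fintype.card_fin]
    have := hB.card_pos
    omega
  obtain ⟨i, hi, hki⟩ := h A.card hA.card_pos hAn
  -- `i ∈ A`
  have hiA : i ∈ A := by
    by_contra hcon
    have hsub : A ⊆ Finset.Iio i := by
      intro j hj
      rw [Finset.mem_Iio]
      exact (hcut j hj i hcon).1
    have := Finset.card_le_card hsub
    rw [Fin.card_Iio] at this
    omega
  have hsub : Finset.Iic (π i) ⊆ A.image π := by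
    intro v hv
    rw [Finset.mem_Iic] at hv
    rw [Finset.mem_image]
    refine ⟨π.symm v, ?_, by simp⟩
    by_contra hcon
    have := (hcut i hiA _ hcon).2
    simp only [Equiv.apply_symm_apply] at this
    exact absurd hv (not_le.2 this)
  have := Finset.card_le_card hsub
  rw [Fin.card_Iic, Finset.card_image_of_injective _ π.injective] at this
  omega

end basics

section points

/-- first coordinate of a point; `(t, false)` is the `t`-th entry of the oscillation and
`(t, true)` the pendant entry attached to it -/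
def px (z : ℤ × Bool) : ℤ :=
  if z.2 = true then 2 * z.1 + 1 else (if z.1 % 2 = 0 then 2 * z.1 - 2 else 2 * z.1 + 2)

/-- second coordinate -/
def py (z : ℤ × Bool) : ℤ :=
  if z.2 = true then 2 * z.1 - 1 else (if z.1 % 2 = 0 then 2 * z.1 + 2 else 2 * z.1 - 2)

lemma comp_far {u v : ℤ × Bool} (hu : u.2 = true → u.1 % 2 = 0) (hv : v.2 = true → v.1 % 2 = 0)
    (h : u.1 + 2 ≤ v.1) : px u < px v ∧ py u < py v := by
  obtain ⟨s, b⟩ := u
  obtain ⟨t, c⟩ := v
  simp only at hu hv h
  cases b <;> cases c <;> simp only [px, py, Bool.false_eq_true, if_false, if_true] <;>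
    simp at hu hv <;> (try split_ifs) <;> omega

lemma comp_leg {u v : ℤ × Bool} (hu : u.2 = true → u.1 % 2 = 0) (hv : v.2 = true → v.1 % 2 = 0)
    (h : u.1 < v.1) (hl : u.2 = true ∨ v.2 = true) : px u < px v ∧ py u < py v := by
  obtain ⟨s, b⟩ := u
  obtain ⟨t, c⟩ := v
  simp only at hu hv h hl
  cases b <;> cases c <;> simp only [px, py, Bool.false_eq_true, if_false, if_true] <;>
    simp at hu hv hl <;> (try split_ifs) <;> omega

lemma inv_leg {t : ℤ} (ht : t % 2 = 0) :
    px (t, false) < px (t, true) ∧ py (t, true) < py (t, false) := by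
  simp only [px, py, Bool.false_eq_true, if_false, if_true]
  split_ifs; omega

lemma inv_spine (t : ℤ) :
    (px (t, false) < px (t + 1, false) ∧ py (t + 1, false) < py (t, false)) ∨
    (px (t + 1, false) < px (t, false) ∧ py (t, false) < py (t + 1, false)) := by
  simp only [px, py, Bool.false_eq_true, if_false]
  split_ifs <;> omega

lemma px_inj {u v : ℤ × Bool} (h : px u = px v) : u = v := by
  obtain ⟨s, b⟩ := u
  obtain ⟨t, c⟩ := v
  cases b <;> cases c <;> simp only [px, Bool.false_eq_true, if_false, if_true] at h <;>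
    (try split_ifs at h) <;> first | omega | (ext; all_goals simp; all_goals omega)

lemma py_inj {u v : ℤ × Bool} (h : py u = py v) : u = v := by
  obtain ⟨s, b⟩ := u
  obtain ⟨t, c⟩ := v
  cases b <;> cases c <;> simp only [py, Bool.false_eq_true, if_false, if_true] at h <;>
    (try split_ifs at h) <;> first | omega | (ext; all_goals simp; all_goals omega)

lemma px_shift (u : ℤ × Bool) {d : ℤ} (hd : d % 2 = 0) : px (u.1 + d, u.2) = px u + 2 * d := by
  obtain ⟨s, b⟩ := u
  cases b <;> simp only [px, Bool.false_eq_true, if_false, if_true]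
  · split_ifs <;> omega
  · omega

lemma py_shift (u : ℤ × Bool) {d : ℤ} (hd : d % 2 = 0) : py (u.1 + d, u.2) = py u + 2 * d := by
  obtain ⟨s, b⟩ := u
  cases b <;> simp only [py, Bool.false_eq_true, if_false, if_true]
  · split_ifs <;> omega
  · omega

end points

section cls

/-- strict lexicographic order -/
def LL (a b : ℕ × ℤ) : Prop := a.1 < b.1 ∨ (a.1 = b.1 ∧ a.2 < b.2)

lemma LL_asymm {a b : ℕ × ℤ} (h : LL a b) (h' : LL b a) : False := by
  rcases h with h | h <;> rcases h' with h' | h' <;> omega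

/-- an embedding of a permutation into copies of the infinite pattern, the copies being stacked
diagonally; the pendant entries are only allowed at multiples of `M` -/
def Emb (M : ℤ) {n : ℕ} (π : Perm (Fin n)) (c : Fin n → ℕ) (z : Fin n → ℤ × Bool) : Prop :=
  (∀ i, (z i).2 = true → M ∣ (z i).1) ∧
  (∀ i j, i < j → LL (c i, px (z i)) (c j, px (z j))) ∧
  (∀ i j, π i < π j → LL (c i, py (z i)) (c j, py (z j)))

/-- the class -/
def CM (M : ℤ) : PermSet := fun _ => {π | ∃ c z, Emb M π c z}

lemma CM_class (M : ℤ) : IsClass (CM M) := by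
  rintro n k π σ ⟨c, z, h1, h2, h3⟩ ⟨f, hf⟩
  refine ⟨c ∘ f, z ∘ f, fun i => h1 _, fun i j hij => h2 _ _ (f.strictMono hij), ?_⟩
  intro i j hij
  exact h3 _ _ ((hf i j).1 hij)

lemma CM_sum (M : ℤ) : SumClosed (CM M) := by
  rintro k m σ τ ⟨c, z, h1, h2, h3⟩ ⟨c', z', h1', h2', h3'⟩
  set K : ℕ := Finset.univ.sup c with hK
  have hcK : ∀ i, c i ≤ K := fun i => Finset.le_sup (Finset.mem_univ i)
  refine ⟨Fin.append c (fun i => K + 1 + c' i), Fin.append z z', ?_, ?_, ?_⟩
  · intro i
    refine Fin.addCases (fun i => ?_) (fun i => ?_) i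
    · simp only [Fin.append_left]; exact h1 i
    · simp only [Fin.append_right]; exact h1' i
  · intro i j
    refine Fin.addCases (fun i => ?_) (fun i => ?_) i <;>
      refine Fin.addCases (fun j => ?_) (fun j => ?_) j
    · intro hij
      simp only [Fin.append_left]
      exact h2 i j (by rw [Fin.lt_def] at hij ⊢; simpa using hij)
    · intro hij
      simp only [Fin.append_left, Fin.append_right]
      left
      have := hcK i
      dsimp only
      omega
    · intro hij
      exfalso
      rw [Fin.lt_def] at hij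
      simp at hij
      omega
    · intro hij
      simp only [Fin.append_right]
      have h5 : i < j := by
        rw [Fin.lt_def] at hij ⊢
        simp at hij
        omega
      rcases h2' i j h5 with h | h
      · left; dsimp only at h ⊢; omega
      · right; exact ⟨by have := h.1; dsimp only at this ⊢; omega, h.2⟩
  · intro i j
    refine Fin.addCases (fun i => ?_) (fun i => ?_) i <;>
      refine Fin.addCases (fun j => ?_) (fun j => ?_) j
    · intro hij
      simp only [Fin.append_left]
      rw [dsum_castAdd, dsum_castAdd] at hij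
      exact h3 i j (by rw [Fin.lt_def] at hij ⊢; simpa using hij)
    · intro hij
      simp only [Fin.append_left, Fin.append_right]
      left
      have := hcK i
      dsimp only
      omega
    · intro hij
      exfalso
      rw [dsum_castAdd, dsum_natAdd, Fin.lt_def] at hij
      simp at hij
      omega
    · intro hij
      simp only [Fin.append_right]
      have h5 : τ i < τ j := by
        rw [dsum_natAdd, dsum_natAdd, Fin.lt_def] at hij
        rw [Fin.lt_def]
        simp at hij
        omega
      rcases h3' i j h5 with h | h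
      · left; dsimp only at h ⊢; omega
      · right; exact ⟨by have := h.1; dsimp only at this ⊢; omega, h.2⟩

/-- In an indecomposable member all entries lie in one copy. -/
lemma one_copy {M : ℤ} {n : ℕ} {π : Perm (Fin n)} {c : Fin n → ℕ} {z : Fin n → ℤ × Bool}
    (hE : Emb M π c z) (hI : Indecomposable π) (i j : Fin n) : ¬ c i < c j := by
  intro hij
  refine no_cut hI (Finset.univ.filter fun l => c l ≤ c i) ⟨i, by simp⟩ ⟨j, by simp [hij]⟩ ?_
  intro a ha b hb
  simp only [Finset.mem_filter, Finset.mem_univ, true_and, not_le] at ha hb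
  have hab : c a < c b := lt_of_le_of_lt ha hb
  constructor
  · rcases lt_trichotomy a b with h | h | h
    · exact h
    · rw [h] at hab; exact absurd hab (lt_irrefl _)
    · exact (LL_asymm (hE.2.1 b a h) (Or.inl hab)).elim
  · rcases lt_trichotomy (π a) (π b) with h | h | h
    · exact h
    · rw [π.injective h] at hab; exact absurd hab (lt_irrefl _)
    · exact (LL_asymm (hE.2.2 b a h) (Or.inl hab)).elim

/-- one-copy embeddings -/
def Emb1 (M : ℤ) {n : ℕ} (π : Perm (Fin n)) (z : Fin n → ℤ × Bool) : Prop :=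
  (∀ i, (z i).2 = true → M ∣ (z i).1) ∧
  (∀ i j, i < j → px (z i) < px (z j)) ∧
  (∀ i j, π i < π j → py (z i) < py (z j))

lemma exists_emb1 {M : ℤ} {n : ℕ} {π : Perm (Fin n)} (h : π ∈ ind (CM M) n) :
    ∃ z, Emb1 M π z := by
  obtain ⟨⟨c, z, hE⟩, hI⟩ := h
  refine ⟨z, hE.1, ?_, ?_⟩
  · intro i j hij
    rcases hE.2.1 i j hij with h | h
    · exact absurd h (one_copy hE hI i j)
    · exact h.2
  · intro i j hij
    rcases hE.2.2 i j hij with h | h
    · exact absurd h (one_copy hE hI i j)
    · exact h.2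

/-- In an indecomposable member, the spine is an interval. -/
lemma spine_mem {M : ℤ} (hM : 2 ∣ M) {n : ℕ} {π : Perm (Fin n)} {z : Fin n → ℤ × Bool}
    (hE : Emb1 M π z) (hI : Indecomposable π) {i j : Fin n} {t : ℤ}
    (hi : (z i).1 < t) (hj : t ≤ (z j).1) : (∃ l, z l = (t - 1, false)) ∧ (∃ l, z l = (t, false)) := by
  have hpar : ∀ l, (z l).2 = true → (z l).1 % 2 = 0 := by
    intro l hl
    have := hM.trans (hE.1 l hl)
    omega
  by_contra hcon
  refine no_cut hI (Finset.univ.filter fun l => (z l).1 < t) ⟨i, by simp [hi]⟩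
    ⟨j, by simp [hj]⟩ ?_
  intro a ha b hb
  simp only [Finset.mem_filter, Finset.mem_univ, true_and, not_lt] at ha hb
  have hcomp : px (z a) < px (z b) ∧ py (z a) < py (z b) := by
    by_cases hfar : (z a).1 + 2 ≤ (z b).1
    · exact comp_far (hpar a) (hpar b) hfar
    · by_cases hleg : (z a).2 = true ∨ (z b).2 = true
      · exact comp_leg (hpar a) (hpar b) (by omega) hleg
      · exfalso
        apply hcon
        push Not at hleg
        have h1 : (z a).1 = t - 1 := by omega
        have h2 : (z b).1 = t := by omega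
        refine ⟨⟨a, Prod.ext h1 (by simpa using hleg.1)⟩, ⟨b, Prod.ext h2 (by simpa using hleg.2)⟩⟩
  constructor
  · rcases lt_trichotomy a b with h | h | h
    · exact h
    · rw [h] at hcomp; exact absurd hcomp.1 (lt_irrefl _)
    · exact absurd (hE.2.1 b a h) (by have := hcomp.1; omega)
  · rcases lt_trichotomy (π a) (π b) with h | h | h
    · exact h
    · rw [π.injective h] at hcomp; exact absurd hcomp.1 (lt_irrefl _)
    · exact absurd (hE.2.2 b a h) (by have := hcomp.2; omega)

end cls

section upper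

lemma perm_eq_of_lt_iff {n : ℕ} {π π' : Perm (Fin n)} (h : ∀ i j, π i < π j ↔ π' i < π' j) :
    π = π' := by
  have h1 : StrictMono (fun v => π' (π.symm v)) := by
    intro v w hvw
    rw [← h]; simpa using hvw
  have h2 : (fun v => π' (π.symm v)) = id := by
    rw [← StrictMono.range_inj h1 strictMono_id]
    rw [Set.range_id, Set.range_eq_univ]
    intro v
    exact ⟨π (π'.symm v), by simp⟩
  ext i
  have := congrFun h2 (π i)
  simp at this
  rw [this]

lemma emb1_inj {M : ℤ} {n : ℕ} {π : Perm (Fin n)} {z : Fin n → ℤ × Bool} (hE : Emb1 M π z) :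
    Function.Injective z := by
  intro i j hij
  rcases lt_trichotomy i j with h | h | h
  · have := hE.2.1 i j h; rw [hij] at this; exact absurd this (lt_irrefl _)
  · exact h
  · have := hE.2.1 j i h; rw [hij] at this; exact absurd this (lt_irrefl _)

lemma emb1_lt_iff {M : ℤ} {n : ℕ} {π : Perm (Fin n)} {z : Fin n → ℤ × Bool} (hE : Emb1 M π z)
    (i j : Fin n) : π i < π j ↔ py (z i) < py (z j) := by
  constructor
  · exact hE.2.2 i j
  · intro h
    rcases lt_trichotomy (π i) (π j) with h' | h' | h'
    · exact h'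
    · rw [π.injective h'] at h; exact absurd h (lt_irrefl _)
    · exact absurd (hE.2.2 j i h') (not_lt.2 h.le)

/-- description of an embedded indecomposable permutation by finitely many data -/
lemma descr {K : ℕ} (hK : 0 < K) (hK2 : 2 ∣ K) {n : ℕ} (hn : 2 ≤ n) {π : Perm (Fin n)}
    {z : Fin n → ℤ × Bool} (hE : Emb1 (K : ℤ) π z) (hI : Indecomposable π) :
    ∃ (a : ℤ) (len : Fin n) (lam : Fin (n / K + 2) → Bool), ∀ (t : ℤ) (b : Bool),
      (∃ i, z i = (t, b)) ↔ ((b = false ∧ a ≤ t ∧ t ≤ a + (len : ℕ)) ∨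
        (b = true ∧ ∃ j : Fin (n / K + 2), t = K * (a / K + (j : ℕ)) ∧ lam j = true)) := by
  have hne : (Finset.univ : Finset (Fin n)).Nonempty := ⟨⟨0, by omega⟩, Finset.mem_univ _⟩
  obtain ⟨i0, -, hmin⟩ := Finset.exists_min_image Finset.univ (fun i => (z i).1) hne
  obtain ⟨i1, -, hmax⟩ := Finset.exists_max_image Finset.univ (fun i => (z i).1) hne
  set a := (z i0).1 with ha
  set b := (z i1).1 with hb
  have hmin' : ∀ i, a ≤ (z i).1 := fun i => hmin i (Finset.mem_univ i)
  have hmax' : ∀ i, (z i).1 ≤ b := fun i => hmax i (Finset.mem_univ i)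
  have hM2 : (2 : ℤ) ∣ (K : ℤ) := by exact_mod_cast hK2
  have hinj := emb1_inj hE
  have hspine : ∀ t, a ≤ t → t ≤ b → ∃ i, z i = (t, false) := by
    intro t hat htb
    rcases eq_or_lt_of_le hat with h | h
    · rcases eq_or_lt_of_le (hmin' i1) with h' | h'
      · -- a = b
        by_contra hcon
        push Not at hcon
        have hall : ∀ i, z i = (a, true) := by
          intro i
          have h1 := hmin' i
          have h2 := hmax' i
          have h3 : (z i).1 = a := by omega
          have h4 : (z i).2 = true := by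
            by_contra h5
            apply hcon i
            rw [← h]
            exact Prod.ext h3 (by simpa using h5)
          exact Prod.ext h3 h4
        have h5 : (⟨0, by omega⟩ : Fin n) = ⟨1, by omega⟩ := hinj ((hall _).trans (hall _).symm)
        simp at h5
      · have := (spine_mem (t := a + 1) hM2 hE hI (i := i0) (j := i1) (by omega) (by omega)).1
        obtain ⟨l, hl⟩ := this
        refine ⟨l, ?_⟩
        rw [hl, ← h]; simp
    · exact (spine_mem (t := t) hM2 hE hI (i := i0) (j := i1) (by omega) (by omega)).2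
  have hlen : b - a + 1 ≤ n := by
    have hsub : (Finset.Icc a b).image (fun t => (t, false)) ⊆ Finset.univ.image z := by
      intro u hu
      rw [Finset.mem_image] at hu
      obtain ⟨t, ht, rfl⟩ := hu
      rw [Finset.mem_Icc] at ht
      obtain ⟨i, hi⟩ := hspine t ht.1 ht.2
      rw [Finset.mem_image]
      exact ⟨i, Finset.mem_univ _, hi⟩
    have hc := Finset.card_le_card hsub
    rw [Finset.card_image_of_injective _ (by intro x y hxy; simpa using hxy),
      Finset.card_image_of_injective _ hinj, Int.card_Icc, Finset.card_univ, Fintype.card_fin] at hc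
    omega
  have hab : a ≤ b := hmin' i1
  have hKz : (0 : ℤ) < K := by exact_mod_cast hK
  refine ⟨a, ⟨(b - a).toNat, by omega⟩,
    fun j => decide (∃ i, z i = ((K : ℤ) * (a / K + (j : ℕ)), true)), ?_⟩
  intro t c
  have hlen' : a + (((b - a).toNat : ℕ) : ℤ) = b := by omega
  cases c with
  | false =>
    simp only [true_and, Bool.false_eq_true, false_and, or_false]
    constructor
    · rintro ⟨i, hi⟩
      have h1 := hmin' i
      have h2 := hmax' i
      rw [hi] at h1 h2
      simp only at h1 h2
      rw [hlen']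
      exact ⟨h1, h2⟩
    · rintro ⟨h1, h2⟩
      rw [hlen'] at h2
      exact hspine t h1 h2
  | true =>
    simp only [Bool.true_eq_false, false_and, true_and, false_or, decide_eq_true_eq]
    constructor
    · rintro ⟨i, hi⟩
      have h1 := hmin' i
      have h2 := hmax' i
      have h3 := hE.1 i (by rw [hi])
      rw [hi] at h1 h2 h3
      simp only at h1 h2 h3
      obtain ⟨q, rfl⟩ := h3
      have hqa : a / K ≤ q := by
        have := Int.ediv_le_ediv hKz h1
        rwa [Int.mul_ediv_cancel_left _ hKz.ne'] at this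
      have hq2 : (q - a / K).toNat < n / K + 2 := by
        have e1 : (K : ℤ) * (a / K) + a % K = a := Int.mul_ediv_add_emod a K
        have e2 := Int.emod_lt_of_pos a hKz
        have e3 : (K : ℤ) * (q - a / K) < n + K := by
          have : (K : ℤ) * (q - a / K) = K * q - K * (a / K) := by ring
          rw [this]; omega
        have e4 : K * (q - a / K).toNat < n + K := by
          zify
          rw [Int.toNat_of_nonneg (by omega)]
          exact e3
        have e5 : (q - a / K).toNat ≤ n / K + 1 := by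
          by_contra hcon
          push Not at hcon
          have e6 : K * (n / K + 2) ≤ K * (q - a / K).toNat := Nat.mul_le_mul_left _ (by omega)
          have e7 := Nat.div_add_mod n K
          have e8 := Nat.mod_lt n hK
          have e9 : K * (n / K + 2) = K * (n / K) + K + K := by ring
          omega
        omega
      refine ⟨⟨(q - a / K).toNat, hq2⟩, ?_, i, ?_⟩
      · simp only
        rw [Int.toNat_of_nonneg (by omega)]
        congr 1; ring
      · rw [hi]
        simp only
        rw [Int.toNat_of_nonneg (by omega)]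
        congr 2; ring
    · rintro ⟨j, hj, i, hi⟩
      exact ⟨i, by rw [hi, hj]⟩

lemma count_upper {K : ℕ} (hK : 0 < K) (hK2 : 2 ∣ K) {n : ℕ} (hn : 2 ≤ n) :
    (ind (CM (K : ℤ)) n).ncard ≤ K * (n * 2 ^ (n / K + 2)) := by
  classical
  have hKz : (0 : ℤ) < K := by exact_mod_cast hK
  -- choose data
  have hdat : ∀ π : ind (CM (K : ℤ)) n, ∃ (z : Fin n → ℤ × Bool) (a : ℤ) (len : Fin n)
      (lam : Fin (n / K + 2) → Bool), Emb1 (K : ℤ) π.1 z ∧ ∀ (t : ℤ) (b : Bool),
      (∃ i, z i = (t, b)) ↔ ((b = false ∧ a ≤ t ∧ t ≤ a + (len : ℕ)) ∨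
        (b = true ∧ ∃ j : Fin (n / K + 2), t = K * (a / K + (j : ℕ)) ∧ lam j = true)) := by
    intro π
    obtain ⟨z, hz⟩ := exists_emb1 π.2
    obtain ⟨a, len, lam, h⟩ := descr hK hK2 hn hz π.2.2
    exact ⟨z, a, len, lam, hz, h⟩
  choose z a len lam hE hD using hdat
  set F : ind (CM (K : ℤ)) n → Fin K × Fin n × (Fin (n / K + 2) → Bool) := fun π =>
    (⟨(a π % K).toNat, by
      have h1 := Int.emod_nonneg (a π) hKz.ne'
      have h2 := Int.emod_lt_of_pos (a π) hKz
      omega⟩, len π, lam π) with hF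
  have hFinj : Function.Injective F := by
    intro π π' hππ
    simp only [hF, Prod.mk.injEq, Fin.mk.injEq] at hππ
    obtain ⟨h1, h2, h3⟩ := hππ
    have h4 : a π % K = a π' % K := by
      have e1 := Int.emod_nonneg (a π) hKz.ne'
      have e2 := Int.emod_nonneg (a π') hKz.ne'
      omega
    set d : ℤ := a π' - a π with hd
    have hdK : d = K * (a π' / K - a π / K) := by
      have e1 := Int.mul_ediv_add_emod (a π) K
      have e2 := Int.mul_ediv_add_emod (a π') K
      rw [mul_sub]; omega
    have hd2 : d % 2 = 0 := by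
      have h5 : (2 : ℤ) ∣ (K : ℤ) := by exact_mod_cast hK2
      have h6 : (2 : ℤ) ∣ d := by rw [hdK]; exact h5.mul_right _
      omega
    have hrange : ∀ (t : ℤ) (b : Bool), (∃ i, z π i = (t, b)) ↔ (∃ i, z π' i = (t + d, b)) := by
      intro t b
      rw [hD, hD, ← h2, ← h3]
      refine or_congr ?_ ?_
      · constructor
        · rintro ⟨e1, e2, e3⟩; exact ⟨e1, by omega, by omega⟩
        · rintro ⟨e1, e2, e3⟩; exact ⟨e1, by omega, by omega⟩
      · refine and_congr Iff.rfl (exists_congr fun j => and_congr ?_ Iff.rfl)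
        have : (K : ℤ) * (a π' / K + (j : ℕ)) = K * (a π / K + (j : ℕ)) + d := by
          rw [hdK]; ring
        rw [this]
        constructor <;> intro h <;> omega
    have hmono : StrictMono (fun i => px (z π i) + 2 * d) := by
      intro i j hij
      have := (hE π).2.1 i j hij
      dsimp only; omega
    have hmono' : StrictMono (fun i => px (z π' i)) := by
      intro i j hij
      exact (hE π').2.1 i j hij
    have hfun : (fun i => px (z π i) + 2 * d) = (fun i => px (z π' i)) := by
      rw [← StrictMono.range_inj hmono hmono']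
      ext x
      simp only [Set.mem_range]
      constructor
      · rintro ⟨i, rfl⟩
        obtain ⟨j, hj⟩ := (hrange (z π i).1 (z π i).2).1 ⟨i, rfl⟩
        refine ⟨j, ?_⟩
        rw [hj, px_shift _ hd2]
      · rintro ⟨i, rfl⟩
        obtain ⟨j, hj⟩ := (hrange ((z π' i).1 - d) (z π' i).2).2 ⟨i, by simp⟩
        refine ⟨j, ?_⟩
        rw [← px_shift _ hd2, hj]
        simp
    have hz : ∀ i, z π' i = ((z π i).1 + d, (z π i).2) := by
      intro i
      apply px_inj
      rw [px_shift _ hd2]
      exact (congrFun hfun i).symm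
    apply Subtype.ext
    apply perm_eq_of_lt_iff
    intro i j
    rw [emb1_lt_iff (hE π), emb1_lt_iff (hE π'), hz i, hz j, py_shift _ hd2, py_shift _ hd2]
    constructor <;> intro h <;> omega
  have hcard := Nat.card_le_card_of_injective F hFinj
  rw [Nat.card_eq_fintype_card (α := Fin K × Fin n × (Fin (n / K + 2) → Bool))] at hcard
  simp only [Fintype.card_prod, Fintype.card_fin, Fintype.card_fun, Fintype.card_bool] at hcard
  exact hcard

end upper

section lower

/-- rank of `u` in `S` with respect to `f` -/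
def rk (S : Finset (ℤ × Bool)) (f : ℤ × Bool → ℤ) (u : ℤ × Bool) : ℕ :=
  (S.filter (fun s => f s < f u)).card

lemma rk_lt_card {S : Finset (ℤ × Bool)} {f : ℤ × Bool → ℤ} {u : ℤ × Bool} (hu : u ∈ S) :
    rk S f u < S.card := by
  refine Finset.card_lt_card ⟨Finset.filter_subset _ _, fun h => ?_⟩
  have := h hu
  rw [Finset.mem_filter] at this
  exact lt_irrefl _ this.2

lemma rk_lt_rk {S : Finset (ℤ × Bool)} {f : ℤ × Bool → ℤ} {u v : ℤ × Bool} (hu : u ∈ S)
    (h : f u < f v) : rk S f u < rk S f v := by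
  refine Finset.card_lt_card ⟨?_, fun h' => ?_⟩
  · intro s hs
    rw [Finset.mem_filter] at hs ⊢
    exact ⟨hs.1, hs.2.trans h⟩
  · have := h' (Finset.mem_filter.2 ⟨hu, h⟩)
    rw [Finset.mem_filter] at this
    exact lt_irrefl _ this.2

lemma rk_lt_iff {S : Finset (ℤ × Bool)} {f : ℤ × Bool → ℤ} {u v : ℤ × Bool} (hu : u ∈ S)
    (hv : v ∈ S) : rk S f u < rk S f v ↔ f u < f v := by
  constructor
  · intro h
    by_contra hcon
    rw [not_lt] at hcon
    rcases eq_or_lt_of_le hcon with h' | h'
    · simp only [rk, h'] at h; exact lt_irrefl _ h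
    · exact absurd (rk_lt_rk hv h') (not_lt.2 h.le)
  · exact rk_lt_rk hu

/-- ranking a finite set of points by an injective function -/
noncomputable def rkEquiv (S : Finset (ℤ × Bool)) {n : ℕ} (hS : S.card = n) (f : ℤ × Bool → ℤ)
    (hf : ∀ u v, f u = f v → u = v) : S ≃ Fin n :=
  Equiv.ofBijective (fun u : S => (⟨rk S f u, by rw [← hS]; exact rk_lt_card u.2⟩ : Fin n)) (by
    rw [Fintype.bijective_iff_injective_and_card]
    refine ⟨?_, by rw [Fintype.card_coe, Fintype.card_fin, hS]⟩
    intro u v huv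
    simp only [Fin.mk.injEq] at huv
    apply Subtype.ext
    apply hf
    rcases lt_trichotomy (f u) (f v) with h | h | h
    · have := rk_lt_rk u.2 h; omega
    · exact h
    · have := rk_lt_rk v.2 h; omega)

lemma rkEquiv_val (S : Finset (ℤ × Bool)) {n : ℕ} (hS : S.card = n) (f : ℤ × Bool → ℤ)
    (hf : ∀ u v, f u = f v → u = v) (u : S) : ((rkEquiv S hS f hf u : Fin n) : ℕ) = rk S f u := rfl

/-- the permutation described by a finite set of points -/
noncomputable def pat (S : Finset (ℤ × Bool)) {n : ℕ} (hS : S.card = n) : Perm (Fin n) :=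
  (rkEquiv S hS px (fun _ _ => px_inj)).symm.trans (rkEquiv S hS py (fun _ _ => py_inj))

lemma pat_apply (S : Finset (ℤ × Bool)) {n : ℕ} (hS : S.card = n) (u : S) :
    pat S hS (rkEquiv S hS px (fun _ _ => px_inj) u) = rkEquiv S hS py (fun _ _ => py_inj) u := by
  simp [pat]

lemma pat_mem {M : ℤ} (S : Finset (ℤ × Bool)) {n : ℕ} (hS : S.card = n)
    (h : ∀ u ∈ S, u.2 = true → M ∣ u.1) : pat S hS ∈ CM M n := by
  set eX := rkEquiv S hS px (fun _ _ => px_inj) with heX
  refine ⟨fun _ => 0, fun i => (eX.symm i : ℤ × Bool), fun i => h _ (eX.symm i).2, ?_, ?_⟩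
  · intro i j hij
    right
    refine ⟨rfl, ?_⟩
    simp only
    rw [← rk_lt_iff (eX.symm i).2 (eX.symm j).2,
      ← rkEquiv_val S hS px (fun _ _ => px_inj), ← rkEquiv_val S hS px (fun _ _ => px_inj),
      ← heX, Equiv.apply_symm_apply, Equiv.apply_symm_apply]
    exact hij
  · intro i j hij
    right
    refine ⟨rfl, ?_⟩
    simp only
    rw [← rk_lt_iff (eX.symm i).2 (eX.symm j).2,
      ← rkEquiv_val S hS py (fun _ _ => py_inj), ← rkEquiv_val S hS py (fun _ _ => py_inj),
      ← pat_apply, ← pat_apply, ← heX, Equiv.apply_symm_apply, Equiv.apply_symm_apply]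
    exact hij

/-- criterion for indecomposability -/
lemma pat_indec (S : Finset (ℤ × Bool)) {n : ℕ} (hS : S.card = n)
    (h : ∀ A ⊆ S, A.Nonempty → (S \ A).Nonempty →
      ∃ u ∈ A, ∃ v ∈ S \ A, ¬ (px u < px v ∧ py u < py v)) : Indecomposable (pat S hS) := by
  classical
  rw [indec_iff]
  intro k hk hkn
  by_contra hcon
  push Not at hcon
  set eX := rkEquiv S hS px (fun _ _ => px_inj) with heX
  set A := S.filter (fun u => rk S px u < k) with hA
  have hin : ∀ u ∈ S, rk S px u < k → rk S py u < k := by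
    intro u hu huk
    have h1 := hcon (eX ⟨u, hu⟩) (by rw [heX, rkEquiv_val]; exact huk)
    rw [heX, pat_apply, rkEquiv_val] at h1
    exact h1
  have hout : ∀ u ∈ S, k ≤ rk S px u → k ≤ rk S py u := by
    intro u hu huk
    by_contra hlt
    push Not at hlt
    have himg : (Finset.univ.filter (fun i : Fin n => (i : ℕ) < k)).image (pat S hS) =
        Finset.univ.filter (fun i : Fin n => (i : ℕ) < k) := by
      apply Finset.eq_of_subset_of_card_le
      · intro v hv
        rw [Finset.mem_image] at hv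
        obtain ⟨i, hi, rfl⟩ := hv
        rw [Finset.mem_filter] at hi ⊢
        exact ⟨Finset.mem_univ _, hcon i hi.2⟩
      · rw [Finset.card_image_of_injective _ (pat S hS).injective]
    have h2 : pat S hS (eX ⟨u, hu⟩) ∈ Finset.univ.filter (fun i : Fin n => (i : ℕ) < k) := by
      rw [Finset.mem_filter]
      refine ⟨Finset.mem_univ _, ?_⟩
      rw [heX, pat_apply, rkEquiv_val]; exact hlt
    rw [← himg, Finset.mem_image] at h2
    obtain ⟨i, hi, hi2⟩ := h2
    rw [Finset.mem_filter] at hi
    have h3 := (pat S hS).injective hi2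
    rw [h3, heX, rkEquiv_val] at hi
    exact absurd hi.2 (not_lt.2 huk)
  obtain ⟨u, hu, v, hv, huv⟩ := h A (Finset.filter_subset _ _)
    (by
      refine ⟨eX.symm ⟨0, by omega⟩, ?_⟩
      rw [hA, Finset.mem_filter]
      refine ⟨(eX.symm _).2, ?_⟩
      rw [← rkEquiv_val S hS px (fun _ _ => px_inj), ← heX, Equiv.apply_symm_apply]
      exact hk)
    (by
      refine ⟨eX.symm ⟨k, hkn⟩, ?_⟩
      rw [hA, Finset.mem_sdiff, Finset.mem_filter]
      refine ⟨(eX.symm _).2, ?_⟩
      rw [not_and]
      intro _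
      rw [← rkEquiv_val S hS px (fun _ _ => px_inj), ← heX, Equiv.apply_symm_apply]
      simp)
  apply huv
  rw [Finset.mem_sdiff, hA, Finset.mem_filter, not_and, not_lt] at hv
  rw [hA, Finset.mem_filter] at hu
  have hv2 := hv.2 hv.1
  constructor
  · rw [← rk_lt_iff hu.1 hv.1]; exact lt_of_lt_of_le hu.2 hv2
  · rw [← rk_lt_iff hu.1 hv.1]
    exact lt_of_lt_of_le (hin u hu.1 hu.2) (hout v hv.1 hv2)

/-- position of the `i`-th pendant entry -/
def pos (K : ℕ) {m : ℕ} (b : Fin m → Bool) (i : Fin m) : ℕ :=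
  2 * K * i + (if b i = true then K else 0)

/-- the point set encoding a 0/1 word -/
def Sb (K : ℕ) {m : ℕ} (b : Fin m → Bool) : Finset (ℤ × Bool) :=
  (Finset.range (2 * K * (m + 1))).image (fun t : ℕ => ((t : ℤ), false)) ∪
    Finset.univ.image (fun i : Fin m => ((pos K b i : ℤ), true))

lemma mem_Sb_false {K m : ℕ} {b : Fin m → Bool} {t : ℤ} :
    (t, false) ∈ Sb K b ↔ ∃ s : ℕ, s < 2 * K * (m + 1) ∧ t = s := by
  simp only [Sb, Finset.mem_union, Finset.mem_image, Finset.mem_range, Prod.mk.injEq, and_true,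
    Finset.mem_univ, true_and, Bool.true_eq_false, and_false, exists_false, or_false]
  exact exists_congr fun s => and_congr_right fun _ => eq_comm

lemma mem_Sb_true {K m : ℕ} {b : Fin m → Bool} {t : ℤ} :
    (t, true) ∈ Sb K b ↔ ∃ i : Fin m, t = pos K b i := by
  simp only [Sb, Finset.mem_union, Finset.mem_image, Finset.mem_range, Prod.mk.injEq, and_true,
    Finset.mem_univ, true_and, Bool.false_eq_true, and_false, exists_false, false_or]
  exact exists_congr fun s => eq_comm

lemma pos_lt {K m : ℕ} (hK : 0 < K) (b b' : Fin m → Bool) {i j : Fin m} (h : i < j) :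
    pos K b i + K ≤ pos K b' j := by
  have h1 : 2 * K * ((i : ℕ) + 1) ≤ 2 * K * (j : ℕ) := Nat.mul_le_mul_left _ h
  rw [mul_add] at h1
  rw [pos, pos]
  split_ifs <;> omega

lemma pos_bound {K m : ℕ} (b : Fin m → Bool) (i : Fin m) : pos K b i < 2 * K * (m + 1) ∨ K = 0 := by
  rcases Nat.eq_zero_or_pos K with h | h
  · exact Or.inr h
  · left
    have h1 : 2 * K * (i : ℕ) ≤ 2 * K * m := Nat.mul_le_mul_left _ i.2.le
    rw [mul_add, pos]
    split_ifs <;> omega

lemma card_Sb {K m : ℕ} (hK : 0 < K) (b : Fin m → Bool) :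
    (Sb K b).card = 2 * K * (m + 1) + m := by
  rw [Sb, Finset.card_union_of_disjoint, Finset.card_image_of_injective, Finset.card_image_of_injective,
    Finset.card_range, Finset.card_univ, Fintype.card_fin]
  · intro i j hij
    simp only [Prod.mk.injEq, and_true] at hij
    have hij' : pos K b i = pos K b j := by exact_mod_cast hij
    rcases lt_trichotomy i j with h | h | h
    · have := pos_lt hK b b h; omega
    · exact h
    · have := pos_lt hK b b h; omega
  · intro i j hij
    simpa using hij
  · rw [Finset.disjoint_left]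
    intro u hu hv
    rw [Finset.mem_image] at hu hv
    obtain ⟨s, -, rfl⟩ := hu
    obtain ⟨i, -, hi⟩ := hv
    simp at hi

lemma Sb_conn {K m : ℕ} (hK : 0 < K) (hK2 : 2 ∣ K) (b : Fin m → Bool) (A : Finset (ℤ × Bool))
    (hA : A ⊆ Sb K b) (hne : A.Nonempty) (hne' : (Sb K b \ A).Nonempty) :
    ∃ u ∈ A, ∃ v ∈ Sb K b \ A, ¬ (px u < px v ∧ py u < py v) := by
  by_contra hcon
  push Not at hcon
  have hsep : ∀ u v, u ∈ Sb K b → v ∈ Sb K b →
      ((px u < px v ∧ py v < py u) ∨ (px v < px u ∧ py u < py v)) → (u ∈ A ↔ v ∈ A) := by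
    intro u v hu hv hinv
    by_contra hiff
    by_cases huA : u ∈ A
    · have hvA : v ∉ A := fun h => hiff ⟨fun _ => h, fun _ => huA⟩
      have h1 : px u < px v ∧ py u < py v := hcon u huA v (Finset.mem_sdiff.2 ⟨hv, hvA⟩)
      rcases hinv with h | h <;> omega
    · have hvA : v ∈ A := by
        by_contra h; exact hiff ⟨fun h' => absurd h' huA, fun h' => absurd h' h⟩
      have h1 : px v < px u ∧ py v < py u := hcon v hvA u (Finset.mem_sdiff.2 ⟨hu, huA⟩)
      rcases hinv with h | h <;> omega
  have hsp : ∀ t : ℕ, t < 2 * K * (m + 1) → (((t : ℤ), false) ∈ A ↔ ((0 : ℤ), false) ∈ A) := by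
    intro t
    induction t with
    | zero => intro _; simp
    | succ t ih =>
      intro ht
      rw [← ih (by omega)]
      have := hsep ((t : ℤ), false) ((t : ℤ) + 1, false) (mem_Sb_false.2 ⟨t, by omega, rfl⟩)
        (mem_Sb_false.2 ⟨t + 1, ht, by push_cast; ring⟩) (inv_spine t)
      rw [this]
      push_cast
      rfl
  have hpos : ∀ i : Fin m, ((pos K b i : ℤ) % 2 = 0) := by
    intro i
    have h1 : 2 ∣ pos K b i := by
      rw [pos]
      refine Dvd.dvd.add (Dvd.dvd.mul_right (Dvd.dvd.mul_right (dvd_refl 2) _) _) ?_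
      split_ifs
      · exact hK2
      · exact dvd_zero _
    omega
  have hleg : ∀ i : Fin m, (((pos K b i : ℤ), true) ∈ A ↔ ((0 : ℤ), false) ∈ A) := by
    intro i
    have hlt : pos K b i < 2 * K * (m + 1) := by
      rcases pos_bound b i (K := K) with h | h
      · exact h
      · omega
    rw [← hsp (pos K b i) hlt]
    exact hsep _ _ (mem_Sb_true.2 ⟨i, rfl⟩) (mem_Sb_false.2 ⟨_, hlt, rfl⟩)
      (Or.inr (inv_leg (hpos i)))
  have hall : ∀ u ∈ Sb K b, (u ∈ A ↔ ((0 : ℤ), false) ∈ A) := by
    rintro ⟨t, c⟩ hu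
    cases c with
    | false =>
      obtain ⟨s, hs, rfl⟩ := mem_Sb_false.1 hu
      exact hsp s hs
    | true =>
      obtain ⟨i, rfl⟩ := mem_Sb_true.1 hu
      exact hleg i
  obtain ⟨u, hu⟩ := hne
  obtain ⟨v, hv⟩ := hne'
  rw [Finset.mem_sdiff] at hv
  exact hv.2 ((hall v hv.1).2 ((hall u (hA hu)).1 hu))

lemma pat_ne {K m : ℕ} (hK : 0 < K) (hK2 : 2 ∣ K) (b b' : Fin m → Bool) (i : Fin m)
    (hlt : ∀ j < i, b j = b' j) (hb : b i = false) (hb' : b' i = true) :
    pat (Sb K b) (card_Sb hK b) ≠ pat (Sb K b') (card_Sb hK b') := by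
  intro heq
  have hKge : 2 ≤ K := Nat.le_of_dvd hK hK2
  set t : ℕ := 2 * K * i with ht
  have htlt : t < 2 * K * (m + 1) := Nat.mul_lt_mul_of_pos_left (by omega) (by omega)
  have htev : (t : ℤ) % 2 = 0 := by
    have : 2 ∣ t := by rw [ht]; exact Dvd.dvd.mul_right (Dvd.dvd.mul_right (dvd_refl 2) _) _
    omega
  have hu : ((t : ℤ), false) ∈ Sb K b := mem_Sb_false.2 ⟨t, htlt, rfl⟩
  have hu' : ((t : ℤ), false) ∈ Sb K b' := mem_Sb_false.2 ⟨t, htlt, rfl⟩
  have hpx : px ((t : ℤ), false) = 2 * t - 2 := by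
    simp only [px, Bool.false_eq_true, if_false]; rw [if_pos htev]
  have hpy : py ((t : ℤ), false) = 2 * t + 2 := by
    simp only [py, Bool.false_eq_true, if_false]; rw [if_pos htev]
  have hsame : ∀ j < i, pos K b j = pos K b' j := by
    intro j hj; rw [pos, pos, hlt j hj]
  have hbefore : ∀ (c : Fin m → Bool) (j : Fin m), j < i → pos K c j + K ≤ t := by
    intro c j hj
    have h1 : 2 * K * ((j : ℕ) + 1) ≤ 2 * K * (i : ℕ) := Nat.mul_le_mul_left _ hj
    rw [mul_add] at h1
    rw [pos]; split_ifs <;> omega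
  have hafter : ∀ (c : Fin m → Bool) (j : Fin m), i < j → t + 2 * K ≤ pos K c j := by
    intro c j hj
    have h1 : 2 * K * ((i : ℕ) + 1) ≤ 2 * K * (j : ℕ) := Nat.mul_le_mul_left _ hj
    rw [mul_add] at h1
    rw [pos]; omega
  have hposi : pos K b i = t := by rw [pos, hb]; simp [ht]
  have hposi' : pos K b' i = t + K := by rw [pos, hb']; simp [ht]
  -- equal first ranks
  have hrx : rk (Sb K b) px ((t : ℤ), false) = rk (Sb K b') px ((t : ℤ), false) := by
    rw [rk, rk]
    congr 1
    ext ⟨s, c⟩
    rw [Finset.mem_filter, Finset.mem_filter, hpx]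
    cases c with
    | false => rw [mem_Sb_false, mem_Sb_false]
    | true =>
      rw [mem_Sb_true, mem_Sb_true]
      simp only [px, if_true]
      constructor
      · rintro ⟨⟨j, rfl⟩, hlt2⟩
        rcases lt_trichotomy j i with h | h | h
        · exact ⟨⟨j, by rw [hsame j h]⟩, hlt2⟩
        · subst h; omega
        · have := hafter b j h; omega
      · rintro ⟨⟨j, rfl⟩, hlt2⟩
        rcases lt_trichotomy j i with h | h | h
        · exact ⟨⟨j, by rw [hsame j h]⟩, hlt2⟩
        · subst h; omega
        · have := hafter b' j h; omega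
  -- the second ranks differ
  have hry : rk (Sb K b) py ((t : ℤ), false) = rk (Sb K b') py ((t : ℤ), false) + 1 := by
    rw [rk, rk]
    have hins : (Sb K b).filter (fun s => py s < py ((t : ℤ), false)) =
        insert ((t : ℤ), true) ((Sb K b').filter (fun s => py s < py ((t : ℤ), false))) := by
      ext ⟨s, c⟩
      rw [Finset.mem_insert, Finset.mem_filter, Finset.mem_filter, hpy]
      cases c with
      | false => simp [mem_Sb_false]
      | true =>
        rw [mem_Sb_true, mem_Sb_true]
        simp only [py, if_true, Prod.mk.injEq, and_true]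
        constructor
        · rintro ⟨⟨j, rfl⟩, hlt2⟩
          rcases lt_trichotomy j i with h | h | h
          · exact Or.inr ⟨⟨j, by rw [hsame j h]⟩, hlt2⟩
          · subst h; left; rw [hposi]
          · have := hafter b j h; omega
        · rintro (h | ⟨⟨j, rfl⟩, hlt2⟩)
          · subst h; exact ⟨⟨i, by rw [hposi]⟩, by omega⟩
          · rcases lt_trichotomy j i with h | h | h
            · exact ⟨⟨j, by rw [hsame j h]⟩, hlt2⟩
            · subst h; omega
            · have := hafter b' j h; omega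
    rw [hins, Finset.card_insert_of_notMem]
    rw [Finset.mem_filter, mem_Sb_true]
    rintro ⟨⟨j, hj⟩, -⟩
    rcases lt_trichotomy j i with h | h | h
    · have := hbefore b' j h; omega
    · subst h; omega
    · have := hafter b' j h; omega
  have e1 := pat_apply (Sb K b) (card_Sb hK b) ⟨_, hu⟩
  have e2 := pat_apply (Sb K b') (card_Sb hK b') ⟨_, hu'⟩
  have e3 : rkEquiv (Sb K b) (card_Sb hK b) px (fun _ _ => px_inj) ⟨_, hu⟩ =
      rkEquiv (Sb K b') (card_Sb hK b') px (fun _ _ => px_inj) ⟨_, hu'⟩ := by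
    apply Fin.ext
    rw [rkEquiv_val, rkEquiv_val]
    exact hrx
  rw [e3, heq, e2] at e1
  have e4 := congrArg Fin.val e1
  rw [rkEquiv_val, rkEquiv_val] at e4
  simp only at e4
  omega

lemma count_lower {K : ℕ} (hK : 0 < K) (hK2 : 2 ∣ K) (m : ℕ) :
    2 ^ m ≤ (ind (CM (K : ℤ)) (2 * K * (m + 1) + m)).ncard := by
  classical
  have hmem : ∀ b : Fin m → Bool, pat (Sb K b) (card_Sb hK b) ∈
      ind (CM (K : ℤ)) (2 * K * (m + 1) + m) := by
    intro b
    refine ⟨pat_mem _ _ ?_, pat_indec _ _ (Sb_conn hK hK2 b)⟩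
    rintro ⟨t, c⟩ hu hc
    simp only at hc
    subst hc
    obtain ⟨i, rfl⟩ := mem_Sb_true.1 hu
    have h1 : K ∣ pos K b i := by
      rw [pos]
      refine Dvd.dvd.add (Dvd.dvd.mul_right (Dvd.dvd.mul_left (dvd_refl K) _) _) ?_
      split_ifs
      · exact dvd_refl _
      · exact dvd_zero _
    exact Int.natCast_dvd_natCast.2 h1
  set F : (Fin m → Bool) → ind (CM (K : ℤ)) (2 * K * (m + 1) + m) := fun b => ⟨_, hmem b⟩ with hF
  have hinj : Function.Injective F := by
    intro b b' hbb
    have heq : pat (Sb K b) (card_Sb hK b) = pat (Sb K b') (card_Sb hK b') :=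
      congrArg Subtype.val hbb
    have key : ∀ k : ℕ, ∀ i : Fin m, (i : ℕ) = k → b i = b' i := by
      intro k
      induction k using Nat.strong_induction_on with
      | _ k ih =>
        intro i hi
        have hlt : ∀ j < i, b j = b' j := fun j hj => ih j (by rw [← hi]; exact hj) j rfl
        by_contra hne
        cases h1 : b i <;> cases h2 : b' i
        · rw [h1, h2] at hne; exact hne rfl
        · exact pat_ne hK hK2 b b' i hlt h1 h2 heq
        · exact pat_ne hK hK2 b' b i (fun j hj => (hlt j hj).symm) h2 h1 heq.symm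
        · rw [h1, h2] at hne; exact hne rfl
    funext i
    exact key i i rfl
  have := Nat.card_le_card_of_injective F hinj
  rw [Nat.card_eq_fintype_card (α := (Fin m → Bool))] at this
  simp only [Fintype.card_fun, Fintype.card_bool, Fintype.card_fin] at this
  exact this

end lower

section growth

lemma growth_lower {K : ℕ} (hK : 0 < K) (hK2 : 2 ∣ K) :
    (2 : ENNReal) ^ (1 / (4 * (K : ℝ) + 1)) ≤ upperGrowth (ind (CM (K : ℤ))) := by
  refine Filter.le_limsup_of_frequently_le ?_
  rw [Filter.frequently_atTop]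
  intro N
  set m : ℕ := N + 1 with hm
  set n : ℕ := 2 * K * (m + 1) + m with hn
  refine ⟨n, by omega, ?_⟩
  have hm1 : (1 : ℝ) ≤ m := by rw [hm]; push_cast; linarith [Nat.cast_nonneg (α := ℝ) N]
  have hnpos : (0 : ℝ) < n := by
    have : 0 < n := by omega
    exact_mod_cast this
  have hcount : ((2 : ENNReal) ^ m) ≤ ((ind (CM (K : ℤ)) n).ncard : ENNReal) := by
    have := count_lower hK hK2 m
    exact_mod_cast this
  have h1 : ((2 : ENNReal) ^ m) ^ (1 / (n : ℝ)) ≤
      ((ind (CM (K : ℤ)) n).ncard : ENNReal) ^ (1 / (n : ℝ)) :=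
    ENNReal.rpow_le_rpow hcount (by positivity)
  refine le_trans ?_ h1
  rw [← ENNReal.rpow_natCast, ← ENNReal.rpow_mul]
  refine ENNReal.rpow_le_rpow_of_exponent_le (by norm_num) ?_
  have hnr : (n : ℝ) = 2 * K * (m + 1) + m := by rw [hn]; push_cast; ring
  have hKr : (0 : ℝ) < K := by exact_mod_cast hK
  rw [mul_one_div, div_le_div_iff₀ (by positivity) hnpos, hnr]
  nlinarith

lemma growth_upper {K : ℕ} (hK : 0 < K) (hK2 : 2 ∣ K) {β : ℝ} (hβ : 1 < β)
    (h2 : 2 ≤ β ^ K) : upperGrowth (ind (CM (K : ℤ))) ≤ ENNReal.ofReal (β ^ 2) := by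
  refine Filter.limsup_le_of_le (h := ?_)
  have hlim := tendsto_pow_const_div_const_pow_of_one_lt 1 hβ
  have hKr : (0 : ℝ) < K := by exact_mod_cast hK
  have hev := hlim.eventually (gt_mem_nhds (show (0 : ℝ) < 1 / (4 * K) by positivity))
  filter_upwards [hev, Filter.eventually_ge_atTop 2] with n hn hn2
  have hβ0 : 0 < β := by linarith
  have hnpos : (0 : ℝ) < n := by
    have : 0 < n := by omega
    exact_mod_cast this
  -- real bound on the number of members
  have hcount : ((ind (CM (K : ℤ)) n).ncard : ℝ) ≤ (β ^ 2) ^ n := by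
    have h3 := count_upper hK hK2 hn2
    have h4 : ((ind (CM (K : ℤ)) n).ncard : ℝ) ≤ K * (n * 2 ^ (n / K + 2)) := by exact_mod_cast h3
    have h5 : (2 : ℝ) ^ (n / K) ≤ β ^ n := by
      calc (2 : ℝ) ^ (n / K) ≤ (β ^ K) ^ (n / K) := pow_le_pow_left₀ (by norm_num) h2 _
        _ = β ^ (K * (n / K)) := by rw [pow_mul]
        _ ≤ β ^ n := pow_le_pow_right₀ hβ.le (Nat.mul_div_le n K)
    have h6 : 4 * (K : ℝ) * n ≤ β ^ n := by
      rw [pow_one, div_lt_div_iff₀ (by positivity) (by positivity)] at hn
      linarith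
    calc ((ind (CM (K : ℤ)) n).ncard : ℝ) ≤ K * (n * 2 ^ (n / K + 2)) := h4
      _ = (4 * (K : ℝ) * n) * 2 ^ (n / K) := by rw [pow_add]; ring
      _ ≤ β ^ n * β ^ n := mul_le_mul h6 h5 (by positivity) (by positivity)
      _ = (β ^ 2) ^ n := by rw [← pow_mul, two_mul, pow_add]
  have h7 : ((ind (CM (K : ℤ)) n).ncard : ENNReal) ≤ ENNReal.ofReal ((β ^ 2) ^ n) := by
    rw [← ENNReal.ofReal_natCast]
    exact ENNReal.ofReal_le_ofReal hcount
  have h8 := ENNReal.rpow_le_rpow h7 (show (0 : ℝ) ≤ 1 / (n : ℝ) by positivity)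
  refine h8.trans (le_of_eq ?_)
  rw [ENNReal.ofReal_rpow_of_nonneg (by positivity) (by positivity), one_div,
    Real.pow_rpow_inv_natCast (by positivity) (by omega)]

end growth

/-- There are sum closed permutation classes whose indecomposables have upper growth rate
arbitrarily close to, but strictly larger than, one. -/
theorem main : ∀ γ : ℝ, 1 < γ → ∃ C : PermSet, IsClass C ∧ SumClosed C ∧
    1 < upperGrowth (ind C) ∧ upperGrowth (ind C) < ENNReal.ofReal γ := by
  intro γ hγ
  set β : ℝ := Real.sqrt ((1 + γ) / 2) with hβdef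
  have hβ2 : β ^ 2 = (1 + γ) / 2 := Real.sq_sqrt (by linarith)
  have hβ : 1 < β := by
    rw [hβdef, Real.lt_sqrt (by norm_num)]; linarith
  obtain ⟨L, hL⟩ := pow_unbounded_of_one_lt 2 (show 1 < β ^ 2 by rw [hβ2]; linarith)
  have hL0 : 0 < L := by
    rcases Nat.eq_zero_or_pos L with h | h
    · rw [h] at hL; norm_num at hL
    · exact h
  refine ⟨CM ((2 * L : ℕ) : ℤ), CM_class _, CM_sum _, ?_, ?_⟩
  · refine lt_of_lt_of_le ?_ (growth_lower (by omega) ⟨L, rfl⟩)
    exact ENNReal.one_lt_rpow (by norm_num) (by positivity)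
  · refine lt_of_le_of_lt (growth_upper (by omega) ⟨L, rfl⟩ hβ ?_) ?_
    · rw [pow_mul]; exact hL.le
    · rw [ENNReal.ofReal_lt_ofReal_iff (by linarith), hβ2]; linarith

end Pool.Agent.H59.IndGrowth
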